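import Pool.Agent.DSB.Defs

/-! DSB / An: adding a block of elements with superincreasing angles to a dissociated set.

PROOF. `angle_of_norm`: `w = exp(2πi t)` with `t = arg w/(2π) ∈ (-1/2, 1/2]`, `‖w - 1‖ = 2 |sin (π t)| ≥ 4 |t|`
(`Real.mul_abs_le_abs_sin`, or `Real.mul_le_sin`). `add_block`: `τ = ρ/4`, `x i = 2^i (J+N+1) τ`. By `angle_of_norm`,
`ψ (b i) = exp(2πi y_i)` with `|y_i - x_i| ≤ τ`, and `ψ s = exp(2πi y_s)`, `|y_s| ≤ τ` for `s ∈ B'`. Let
`ε` be a relation on `B' ∪ image b`, first over the index set: injectivity of `b` on `range J` and disjointness from `B'`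
can be proved by the same inequality (angles `y_i` are pairwise different modulo 1, and different from all `|y| ≤ τ`:
`x_0 - τ > τ` unless `J + N = 0`...; for `J = 0` nothing is to be proved, for `J ≥ 1`, if `B'` is nonempty then `N ≥ 1` so
`x_0 = (J+N+1) τ > 2 τ`; `x_{i+1} - x_i ≥ x_0 ≥ 2 τ`, with strictness from `y` bounds as `J + N + 1 ≥ 3` when `J ≥ 2`).
The relation gives `∑ ε y ∈ ℤ`. `|∑ ε y| ≤ ∑_{i<J} (x_i + τ) + N τ = (2^J - 1) x_0 + (J+N) τ < 2^J x_0 < 1`. So
`∑ ε y = 0`. If `i0` is the largest index with `ε (b i0) ≠ 0`: `|∑ ε y| ≥ x_{i0} - τ - ∑_{i<i0} (x_i + τ) - N τ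
≥ x_0 - (i0 + 1 + N) τ ≥ x_0 - (J+N) τ = τ > 0`, contradiction. So `ε = 0` on the block, and the rest is a relation on
`B'`. -/

set_option autoImplicit false

open Finset

namespace DSB

variable {G : Type*} [AddCommGroup G] [Fintype G]

theorem angle_of_norm (w : ℂ) (hw : ‖w‖ = 1) (ρ : ℝ) (h : ‖w - 1‖ ≤ ρ) :
    ∃ t : ℝ, |t| ≤ ρ / 4 ∧ w = Complex.exp (2 * Real.pi * t * Complex.I) := by
  have hpi := Real.pi_pos
  refine ⟨w.arg / (2 * Real.pi), ?_, ?_⟩
  · have e0 : w = Complex.exp (Complex.I * (w.arg : ℂ)) := by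
      have := Complex.norm_mul_exp_arg_mul_I w
      rw [hw] at this
      rw [mul_comm Complex.I]
      simpa using this.symm
    have e1 : ‖w - 1‖ = ‖2 * Real.sin (w.arg / 2)‖ := by
      conv_lhs => rw [e0]
      exact Complex.norm_exp_I_mul_ofReal_sub_one _
    have harg : |w.arg / 2| ≤ Real.pi / 2 := by
      rw [abs_div, abs_two]
      have := Complex.abs_arg_le_pi w
      linarith
    have e2 := Real.mul_abs_le_abs_sin harg
    rw [e1, norm_mul, Real.norm_eq_abs, Real.norm_eq_abs, abs_two] at h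
    rw [abs_div, abs_two] at e2
    rw [abs_div, abs_of_pos (by positivity : 0 < 2 * Real.pi), div_le_div_iff₀ (by positivity) (by norm_num)]
    have e3 : 2 / Real.pi * (|w.arg| / 2) = |w.arg| / Real.pi := by ring
    rw [e3, div_le_iff₀ hpi] at e2
    nlinarith
  · have := Complex.norm_mul_exp_arg_mul_I w
    rw [hw] at this
    have e1 : (2 * (Real.pi : ℂ) * ((w.arg / (2 * Real.pi) : ℝ) : ℂ) * Complex.I) = (w.arg : ℂ) * Complex.I := by
      push_cast
      field_simp
    rw [e1]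
    simpa using this.symm

omit [Fintype G] in
private theorem psi_sum (ψ : AddChar G ℂ) {ι : Type*} (s : Finset ι) (g : ι → G) (ε : ι → ℤ) (y : ι → ℝ)
    (h : ∀ i ∈ s, ψ (g i) = Complex.exp (2 * Real.pi * (y i : ℂ) * Complex.I)) :
    ψ (∑ i ∈ s, ε i • g i) = Complex.exp (2 * Real.pi * ((∑ i ∈ s, (ε i : ℝ) * y i : ℝ) : ℂ) * Complex.I) := by
  classical
  induction s using Finset.induction_on with
  | empty => simp
  | insert a s ha ih =>
    rw [Finset.sum_insert ha, Finset.sum_insert ha, AddChar.map_add_eq_mul,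
      ih (fun i hi => h i (Finset.mem_insert_of_mem hi)), AddChar.map_zsmul_eq_zpow,
      h a (Finset.mem_insert_self _ _), ← Complex.exp_int_mul, ← Complex.exp_add]
    congr 1
    push_cast
    ring

private theorem exp_eq_one {u : ℝ} (h : Complex.exp (2 * Real.pi * (u : ℂ) * Complex.I) = 1) :
    ∃ n : ℤ, u = n := by
  rw [Complex.exp_eq_one_iff] at h
  obtain ⟨n, hn⟩ := h
  refine ⟨n, ?_⟩
  have h1 : (2 * (Real.pi : ℂ) * Complex.I) ≠ 0 := by
    simp [Real.pi_ne_zero]
  have h2 : (u : ℂ) = (n : ℂ) := by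
    have : (2 * (Real.pi : ℂ) * Complex.I) * (u : ℂ) = (2 * (Real.pi : ℂ) * Complex.I) * (n : ℂ) := by
      linear_combination hn
    exact mul_left_cancel₀ h1 this
  exact_mod_cast h2

omit [Fintype G] in
private theorem core (ψ : AddChar G ℂ) (J N : ℕ) (τ : ℝ) (hτ : 0 < τ) (h4 : 2 ^ J * ((J + N + 1) * τ) < 1)
    (B' : Finset G) (hN : B'.card ≤ N) (y : G → ℝ) (hy : ∀ s ∈ B', |y s| ≤ τ)
    (hψ : ∀ s ∈ B', ψ s = Complex.exp (2 * Real.pi * (y s : ℂ) * Complex.I))
    (b : ℕ → G) (z : ℕ → ℝ) (hz : ∀ i < J, |z i - 2 ^ i * ((J + N + 1) * τ)| ≤ τ)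
    (hb : ∀ i < J, ψ (b i) = Complex.exp (2 * Real.pi * (z i : ℂ) * Complex.I))
    (ε : ℕ → ℤ) (hε : ∀ i < J, |ε i| ≤ 1) (δ : G → ℤ) (hδ : ∀ s ∈ B', |δ s| ≤ 1)
    (h0 : ∑ i ∈ range J, ε i • b i + ∑ s ∈ B', δ s • s = 0) : ∀ i < J, ε i = 0 := by
  classical
  set x0 : ℝ := (J + N + 1) * τ with hx0
  have hx0pos : 0 < x0 := by positivity
  have hεr : ∀ i < J, |(ε i : ℝ)| ≤ 1 := fun i hi => by exact_mod_cast hε i hi
  have hδr : ∀ s ∈ B', |(δ s : ℝ)| ≤ 1 := fun s hs => by exact_mod_cast hδ s hs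
  -- the integer relation
  have e1 : ∃ n : ℤ, (∑ i ∈ range J, (ε i : ℝ) * z i + ∑ s ∈ B', (δ s : ℝ) * y s) = n := by
    apply exp_eq_one
    have h1 := psi_sum ψ (range J) b ε z (fun i hi => hb i (Finset.mem_range.1 hi))
    have h2 := psi_sum ψ B' (fun s => s) δ y hψ
    have h3 : ψ (∑ i ∈ range J, ε i • b i + ∑ s ∈ B', δ s • s) = 1 := by rw [h0]; exact AddChar.map_zero_eq_one ψ
    rw [AddChar.map_add_eq_mul, h1, h2, ← Complex.exp_add] at h3
    rw [← h3]
    congr 1
    push_cast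
    ring
  -- bounds
  have hB : |∑ s ∈ B', (δ s : ℝ) * y s| ≤ N * τ := by
    calc |∑ s ∈ B', (δ s : ℝ) * y s| ≤ ∑ s ∈ B', |(δ s : ℝ) * y s| := Finset.abs_sum_le_sum_abs _ _
      _ ≤ ∑ s ∈ B', τ := by
          refine Finset.sum_le_sum fun s hs => ?_
          rw [abs_mul]
          calc |(δ s : ℝ)| * |y s| ≤ 1 * τ := mul_le_mul (hδr s hs) (hy s hs) (abs_nonneg _) zero_le_one
            _ = τ := one_mul _
      _ = B'.card * τ := by rw [Finset.sum_const, nsmul_eq_mul]
      _ ≤ N * τ := by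
          refine mul_le_mul_of_nonneg_right ?_ hτ.le
          exact_mod_cast hN
  have hzb : ∀ i < J, |(ε i : ℝ) * z i| ≤ 2 ^ i * x0 + τ := by
    intro i hi
    have h1 := hz i hi
    have h2 : |z i| ≤ 2 ^ i * x0 + τ := by
      have h3 := abs_le.1 h1
      have h4 : 0 < 2 ^ i * x0 := by positivity
      rw [abs_le]
      constructor <;> linarith
    rw [abs_mul]
    calc |(ε i : ℝ)| * |z i| ≤ 1 * (2 ^ i * x0 + τ) := mul_le_mul (hεr i hi) h2 (abs_nonneg _) zero_le_one
      _ = _ := one_mul _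
  have hgeo : ∀ m ≤ J, |∑ i ∈ range m, (ε i : ℝ) * z i| ≤ 2 ^ m * x0 - x0 + m * τ := by
    intro m
    induction m with
    | zero => intro _; simp
    | succ m ih =>
      intro hm
      rw [Finset.sum_range_succ]
      have h1 := ih (by omega)
      have h2 := hzb m (by omega)
      have h3 := abs_add_le (∑ i ∈ range m, (ε i : ℝ) * z i) ((ε m : ℝ) * z m)
      push_cast
      rw [pow_succ]
      linarith
  obtain ⟨n, hn⟩ := e1
  have hn0 : n = 0 := by
    have h1 := hgeo J le_rfl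
    have h2 := abs_add_le (∑ i ∈ range J, (ε i : ℝ) * z i) (∑ s ∈ B', (δ s : ℝ) * y s)
    rw [hn] at h2
    have h3 : |(n : ℝ)| < 1 := by
      have h5 : (J : ℝ) * τ + N * τ < x0 := by rw [hx0]; linarith
      linarith
    have h4 : |n| < 1 := by exact_mod_cast h3
    exact abs_eq_zero.1 (by
      have := abs_nonneg n
      omega)
  rw [hn0, Int.cast_zero] at hn
  by_contra hcon
  push Not at hcon
  obtain ⟨i₁, hi₁, hi₁'⟩ := hcon
  set T := (range J).filter (fun i => ε i ≠ 0) with hT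
  have hTne : T.Nonempty := ⟨i₁, by rw [hT, Finset.mem_filter, Finset.mem_range]; exact ⟨hi₁, hi₁'⟩⟩
  obtain ⟨i0, hi0T, hi0max⟩ := T.exists_max_image id hTne
  rw [hT, Finset.mem_filter, Finset.mem_range] at hi0T
  obtain ⟨hi0J, hi0⟩ := hi0T
  have hsplit : ∑ i ∈ range J, (ε i : ℝ) * z i = ∑ i ∈ range i0, (ε i : ℝ) * z i + (ε i0 : ℝ) * z i0 := by
    rw [← Finset.sum_range_succ]
    symm
    refine Finset.sum_subset (by
      intro i hi
      rw [Finset.mem_range] at hi ⊢
      omega) ?_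
    intro i hi hi'
    have h1 : ε i = 0 := by
      by_contra h2
      have h3 := hi0max i (by rw [hT, Finset.mem_filter]; exact ⟨hi, h2⟩)
      apply hi'
      rw [Finset.mem_range]
      simp only [id] at h3
      omega
    rw [h1]
    simp
  rw [hsplit] at hn
  have h1 := hgeo i0 hi0J.le
  have h2 : |(ε i0 : ℝ) * z i0| = |z i0| := by
    have h3 : |ε i0| = 1 := by
      have h4 := hε i0 hi0J
      have h5 : 0 < |ε i0| := abs_pos.2 hi0
      omega
    have h4 : |(ε i0 : ℝ)| = 1 := by exact_mod_cast h3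
    rw [abs_mul, h4, one_mul]
  have h3 : 2 ^ i0 * x0 - τ ≤ |z i0| := by
    have h4 := (abs_le.1 (hz i0 hi0J)).1
    have h5 := le_abs_self (z i0)
    linarith
  have h4 : |(ε i0 : ℝ) * z i0| ≤ |∑ i ∈ range i0, (ε i : ℝ) * z i| + |∑ s ∈ B', (δ s : ℝ) * y s| := by
    have h5 : (ε i0 : ℝ) * z i0 = -(∑ i ∈ range i0, (ε i : ℝ) * z i) + -(∑ s ∈ B', (δ s : ℝ) * y s) := by
      linarith
    rw [h5]
    refine (abs_add_le _ _).trans ?_
    rw [abs_neg, abs_neg]
  have h5 : (i0 : ℝ) + 1 ≤ J := by exact_mod_cast hi0J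
  have h6 : x0 = (J + N + 1) * τ := hx0
  nlinarith

theorem add_block (ψ : AddChar G ℂ) (J N : ℕ) (ρ : ℝ) (hρ : 0 < ρ) (h4 : 2 ^ J * (J + N + 1) * ρ < 4)
    (B' : Finset G) (hB' : Pool.Agent.Helper81.Dissoc.Dissociated B') (hN : B'.card ≤ N)
    (hs : ∀ s ∈ B', ‖ψ s - 1‖ ≤ ρ) (b : ℕ → G)
    (hb : ∀ i < J, ‖ψ (b i) * Complex.exp (-(2 * Real.pi * ((2 ^ i * (J + N + 1) * ρ / 4 : ℝ) : ℂ) * Complex.I)) - 1‖ ≤ ρ) :
    ∃ B : Finset G, B.card = B'.card + J ∧ (∀ x ∈ B, x ∈ B' ∨ ∃ i < J, x = b i) ∧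
      Pool.Agent.Helper81.Dissoc.Dissociated B := by
  classical
  set τ : ℝ := ρ / 4 with hτ
  have hτ0 : 0 < τ := by positivity
  have h4' : 2 ^ J * ((J + N + 1) * τ) < 1 := by
    have : (2 : ℝ) ^ J * ((J + N + 1) * τ) = 2 ^ J * (J + N + 1) * ρ / 4 := by rw [hτ]; ring
    rw [this]
    linarith
  -- angles
  have hy : ∀ s : G, ∃ t : ℝ, s ∈ B' → |t| ≤ τ ∧ ψ s = Complex.exp (2 * Real.pi * (t : ℂ) * Complex.I) := by
    intro s
    by_cases h : s ∈ B'
    · obtain ⟨t, ht1, ht2⟩ := angle_of_norm (ψ s) (ψ.norm_apply s) ρ (hs s h)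
      exact ⟨t, fun _ => ⟨ht1, ht2⟩⟩
    · exact ⟨0, fun h' => absurd h' h⟩
  choose y hy using hy
  have hz : ∀ i : ℕ, ∃ t : ℝ, i < J → |t - 2 ^ i * ((J + N + 1) * τ)| ≤ τ ∧
      ψ (b i) = Complex.exp (2 * Real.pi * (t : ℂ) * Complex.I) := by
    intro i
    by_cases h : i < J
    · have hnorm : ‖ψ (b i) * Complex.exp (-(2 * Real.pi * ((2 ^ i * (J + N + 1) * ρ / 4 : ℝ) : ℂ) * Complex.I))‖
          = 1 := by
        rw [norm_mul, ψ.norm_apply, one_mul]
        have e0 : (-(2 * (Real.pi : ℂ) * ((2 ^ i * (J + N + 1) * ρ / 4 : ℝ) : ℂ) * Complex.I)) =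
            ((-(2 * Real.pi * (2 ^ i * (J + N + 1) * ρ / 4)) : ℝ) : ℂ) * Complex.I := by
          push_cast
          ring
        rw [e0]
        exact Complex.norm_exp_ofReal_mul_I _
      obtain ⟨t, ht1, ht2⟩ := angle_of_norm _ hnorm ρ (hb i h)
      refine ⟨t + 2 ^ i * ((J + N + 1) * τ), fun _ => ⟨by simpa using ht1, ?_⟩⟩
      have e1 : ψ (b i) = Complex.exp (2 * Real.pi * (t : ℂ) * Complex.I) *
          Complex.exp (2 * Real.pi * ((2 ^ i * (J + N + 1) * ρ / 4 : ℝ) : ℂ) * Complex.I) := by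
        rw [← ht2, mul_assoc, ← Complex.exp_add]
        simp
      rw [e1, ← Complex.exp_add]
      congr 1
      push_cast
      rw [hτ]
      push_cast
      ring
    · exact ⟨0, fun h' => absurd h' h⟩
  choose z hz using hz
  have hcore := core ψ J N τ hτ0 h4' B' hN y (fun s hs => (hy s hs).1) (fun s hs => (hy s hs).2) b z
    (fun i hi => (hz i hi).1) (fun i hi => (hz i hi).2)
  -- injectivity
  have hinj : ∀ i < J, ∀ j < J, b i = b j → i = j := by
    intro i hi j hj hij
    by_contra hne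
    have h1 := hcore (fun k => if k = i then 1 else if k = j then -1 else 0)
      (fun k _ => by split_ifs <;> simp) (fun _ => 0) (fun _ _ => by simp) (by
        simp only [zero_smul, Finset.sum_const_zero, add_zero]
        have e1 : ∀ k ∈ range J, (if k = i then (1 : ℤ) else if k = j then -1 else 0) • b k =
            (if k = i then b k else 0) + (if k = j then -b k else 0) := by
          intro k _
          by_cases h1 : k = i
          · have h2 : k ≠ j := fun h => hne (h1.symm.trans h)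
            simp [h1, if_neg (h1 ▸ h2)]
          · by_cases h2 : k = j
            · have h3 : ¬ j = i := fun h => hne h.symm
              simp [h2, h3]
            · simp [h1, h2]
        rw [Finset.sum_congr rfl e1, Finset.sum_add_distrib, Finset.sum_ite_eq' (range J) i,
          Finset.sum_ite_eq' (range J) j]
        simp [hi, hj, hij]) i hi
    simp at h1
  have hdisj : ∀ i < J, b i ∉ B' := by
    intro i hi hbi
    have h1 := hcore (fun k => if k = i then 1 else 0)
      (fun k _ => by split_ifs <;> simp) (fun s => if s = b i then -1 else 0)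
      (fun s _ => by split_ifs <;> simp) (by
        have e1 : ∑ k ∈ range J, (if k = i then (1 : ℤ) else 0) • b k = b i := by
          rw [Finset.sum_eq_single i]
          · simp
          · intro k _ hk; simp [hk]
          · intro h; exact absurd (Finset.mem_range.2 hi) h
        have e2 : ∑ s ∈ B', (if s = b i then (-1 : ℤ) else 0) • s = -b i := by
          rw [Finset.sum_eq_single (b i)]
          · simp
          · intro k _ hk; simp [hk]
          · intro h; exact absurd hbi h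
        rw [e1, e2, add_neg_cancel]) i hi
    simp at h1
  have hinj' : Set.InjOn b (range J : Finset ℕ) := fun i hi j hj h =>
    hinj i (Finset.mem_range.1 (Finset.mem_coe.1 hi)) j (Finset.mem_range.1 (Finset.mem_coe.1 hj)) h
  have hdis : Disjoint B' ((range J).image b) := by
    rw [Finset.disjoint_left]
    intro s hs hs'
    obtain ⟨i, hi, rfl⟩ := Finset.mem_image.1 hs'
    exact hdisj i (Finset.mem_range.1 hi) hs
  refine ⟨B' ∪ (range J).image b, ?_, ?_, ?_⟩
  · rw [Finset.card_union_of_disjoint hdis, Finset.card_image_of_injOn hinj', card_range]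
  · intro x hx
    rcases Finset.mem_union.1 hx with h | h
    · exact Or.inl h
    · obtain ⟨i, hi, rfl⟩ := Finset.mem_image.1 h
      exact Or.inr ⟨i, Finset.mem_range.1 hi, rfl⟩
  · intro ε hε h0
    rw [Finset.sum_union hdis, Finset.sum_image hinj'] at h0
    have h1 : ∀ i < J, ε (b i) = 0 := hcore (fun i => ε (b i))
      (fun i hi => by
        rcases hε (b i) (Finset.mem_union_right _ (Finset.mem_image_of_mem _ (Finset.mem_range.2 hi))) with h | h | h <;>
          simp [h]) ε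
      (fun s hs => by
        rcases hε s (Finset.mem_union_left _ hs) with h | h | h <;> simp [h])
      (by rw [add_comm]; exact h0)
    have h2 : ∑ i ∈ range J, ε (b i) • b i = 0 := Finset.sum_eq_zero fun i hi => by
      rw [h1 i (Finset.mem_range.1 hi), zero_smul]
    rw [h2, add_zero] at h0
    have h3 := hB' ε (fun s hs => hε s (Finset.mem_union_left _ hs)) h0
    intro x hx
    rcases Finset.mem_union.1 hx with h | h
    · exact h3 x h
    · obtain ⟨i, hi, rfl⟩ := Finset.mem_image.1 h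
      exact h1 i (Finset.mem_range.1 hi)

end DSB
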