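import Pool.Agent.DSB.Defs

/-! DSB / Co: few correlated pairs, few elements of small order.

PROOF. `card_corr`: if `(s, t) ∈ A × A` is not `Unc`, there are `(k, l) ≠ (0, 0)`, `|k|, |l| ≤ 2n`, `k s + l t = 0`; if
`l = 0` then `|k| • s = 0`, contradiction to `Good n s`; so `l ≠ 0`. For given `s`, `k`, `l` (`l ≠ 0`) the set of `t` with
`l t = - k s` is empty or a coset of `{x : |l| • x = 0}`, so has at most `T` elements. There are `(4n+1)² ≤ 25 n²` pairs
`(k, l)`. Total `≤ |A| * 25 n² T`. `card_notGood`: the elements which are not `Good` lie in the union over `1 ≤ k ≤ 2n` of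
the sets `{x : k • x = 0}`. -/

set_option autoImplicit false

open Finset

namespace DSB

variable {G : Type*} [AddCommGroup G] [Fintype G]

private theorem natAbs_smul {e : ℤ} {x : G} (h : e • x = 0) : e.natAbs • x = 0 := by
  rcases Int.natAbs_eq e with h3 | h3
  · rw [← natCast_zsmul, ← h3, h]
  · have h4 : ((e.natAbs : ℕ) : ℤ) = - e := by omega
    rw [← natCast_zsmul, h4, neg_smul, h, neg_zero]

open Classical in
private theorem coset_le (n T : ℕ)
    (hT : ∀ k : ℕ, 1 ≤ k → k ≤ 2 * n → (Finset.univ.filter fun x : G => k • x = 0).card ≤ T)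
    (s : G) (k l : ℤ) (hl : l ≠ 0) (hl' : |l| ≤ 2 * n) :
    (Finset.univ.filter fun t : G => k • s + l • t = 0).card ≤ T := by
  rcases (Finset.univ.filter fun t : G => k • s + l • t = 0).eq_empty_or_nonempty with h | ⟨t₀, ht₀⟩
  · rw [h, card_empty]
    exact Nat.zero_le T
  · have h0 := (mem_filter.1 ht₀).2
    have h1 : 1 ≤ l.natAbs := Nat.one_le_iff_ne_zero.mpr (Int.natAbs_ne_zero.mpr hl)
    have h2 : l.natAbs ≤ 2 * n := by
      have : ((l.natAbs : ℕ) : ℤ) ≤ 2 * n := by rw [Int.natCast_natAbs]; exact hl'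
      exact_mod_cast this
    refine le_trans ?_ (hT l.natAbs h1 h2)
    refine card_le_card_of_injOn (fun t => t - t₀) ?_ ?_
    · intro t ht
      have ht1 := (mem_filter.1 (mem_coe.1 ht)).2
      refine mem_coe.2 (mem_filter.2 ⟨mem_univ _, natAbs_smul ?_⟩)
      show l • (t - t₀) = 0
      have : l • (t - t₀) = (k • s + l • t) - (k • s + l • t₀) := by
        rw [smul_sub]
        abel
      rw [this, ht1, h0, sub_zero]
    · intro a _ b _ hab
      exact sub_left_injective hab

open Classical in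
theorem card_corr (n T : ℕ) (hn : 1 ≤ n)
    (hT : ∀ k : ℕ, 1 ≤ k → k ≤ 2 * n → (Finset.univ.filter fun x : G => k • x = 0).card ≤ T)
    (A : Finset G) (hA : ∀ s ∈ A, Good n s) :
    ((A ×ˢ A).filter fun p => ¬ Unc n p.1 p.2).card ≤ A.card * (25 * n ^ 2 * T) := by
  have h1 : ((A ×ˢ A).filter fun p => ¬ Unc n p.1 p.2).card = ∑ s ∈ A, (A.filter fun t => ¬ Unc n s t).card := by
    rw [card_filter, sum_product]
    exact sum_congr rfl fun s _ => (card_filter _ _).symm
  rw [h1, ← smul_eq_mul]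
  refine sum_le_card_nsmul A _ _ fun s hs => ?_
  set I : Finset (ℤ × ℤ) := (Icc (-(2 * n : ℤ)) (2 * n) ×ˢ Icc (-(2 * n : ℤ)) (2 * n)).filter fun q => q.2 ≠ 0 with hI
  have hsub : (A.filter fun t => ¬ Unc n s t) ⊆
      I.biUnion fun q => Finset.univ.filter fun t : G => q.1 • s + q.2 • t = 0 := by
    intro t ht
    have ht1 := (mem_filter.1 ht).2
    unfold Unc at ht1
    push Not at ht1
    obtain ⟨k, l, hk, hl, hkl, hne⟩ := ht1
    have hl0 : l ≠ 0 := by
      intro hl0
      rw [hl0, zero_smul, add_zero] at hkl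
      have hk0 : k ≠ 0 := fun hk0 => hne hk0 hl0
      have a1 : 1 ≤ k.natAbs := Nat.one_le_iff_ne_zero.mpr (Int.natAbs_ne_zero.mpr hk0)
      have a2 : k.natAbs ≤ 2 * n := by
        have : ((k.natAbs : ℕ) : ℤ) ≤ 2 * n := by rw [Int.natCast_natAbs]; exact hk
        exact_mod_cast this
      exact hA s hs k.natAbs a1 a2 (natAbs_smul hkl)
    rw [mem_biUnion]
    refine ⟨(k, l), ?_, mem_filter.2 ⟨mem_univ _, hkl⟩⟩
    rw [hI, mem_filter, mem_product, mem_Icc, mem_Icc]
    exact ⟨⟨abs_le.1 hk, abs_le.1 hl⟩, hl0⟩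
  have hcard : I.card ≤ 25 * n ^ 2 := by
    refine (card_filter_le _ _).trans ?_
    rw [card_product, Int.card_Icc]
    have e1 : (2 * (n : ℤ) + 1 - -(2 * (n : ℤ))).toNat = 4 * n + 1 := by omega
    rw [e1]
    nlinarith
  calc (A.filter fun t => ¬ Unc n s t).card ≤
        (I.biUnion fun q => Finset.univ.filter fun t : G => q.1 • s + q.2 • t = 0).card := card_le_card hsub
    _ ≤ I.card * T := by
        refine card_biUnion_le_card_mul _ _ _ fun q hq => ?_
        rw [hI, mem_filter, mem_product, mem_Icc, mem_Icc] at hq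
        exact coset_le n T hT s q.1 q.2 hq.2 (abs_le.2 hq.1.2)
    _ ≤ 25 * n ^ 2 * T := Nat.mul_le_mul_right T hcard

open Classical in
theorem card_notGood (n T : ℕ)
    (hT : ∀ k : ℕ, 1 ≤ k → k ≤ 2 * n → (Finset.univ.filter fun x : G => k • x = 0).card ≤ T)
    (A : Finset G) : (A.filter fun s => ¬ Good n s).card ≤ 2 * n * T := by
  have hsub : (A.filter fun s => ¬ Good n s) ⊆
      (Icc 1 (2 * n)).biUnion fun k => Finset.univ.filter fun x : G => k • x = 0 := by
    intro s hs
    have hs1 := (mem_filter.1 hs).2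
    unfold Good at hs1
    push Not at hs1
    obtain ⟨k, hk1, hk2, hk3⟩ := hs1
    rw [mem_biUnion]
    exact ⟨k, mem_Icc.2 ⟨hk1, hk2⟩, mem_filter.2 ⟨mem_univ _, hk3⟩⟩
  calc (A.filter fun s => ¬ Good n s).card ≤
        ((Icc 1 (2 * n)).biUnion fun k => Finset.univ.filter fun x : G => k • x = 0).card := card_le_card hsub
    _ ≤ (Icc 1 (2 * n)).card * T := by
        refine card_biUnion_le_card_mul _ _ _ fun k hk => ?_
        exact hT k (mem_Icc.1 hk).1 (mem_Icc.1 hk).2
    _ = 2 * n * T := by rw [Nat.card_Icc, Nat.add_sub_cancel]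

end DSB
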