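import Pool.Agent.Helper81.Dissoc.Basic

/-!
# DSB: dimension of arbitrary sets in finite abelian groups, definitions

`P n w = |∑_{k<n} w^k|²`, `K n w = |∑_{k<n} w^k|⁴` (Jackson kernel), `c0 n` the number of solutions of
`a + b = c + d` in `[0, n)`, i.e. the constant coefficient of `K n`.
-/

set_option autoImplicit false

open Finset

namespace DSB

variable {G : Type*} [AddCommGroup G]

noncomputable def P (n : ℕ) (w : ℂ) : ℝ := ‖∑ k ∈ range n, w ^ k‖ ^ 2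

noncomputable def K (n : ℕ) (w : ℂ) : ℝ := ‖∑ k ∈ range n, w ^ k‖ ^ 4

/-- quadruples `((a, b), (c, d))` of numbers `< n`. -/
def quad (n : ℕ) : Finset ((ℕ × ℕ) × (ℕ × ℕ)) := (range n ×ˢ range n) ×ˢ (range n ×ˢ range n)

/-- the exponent `a + b - c - d`. -/
def ex (q : (ℕ × ℕ) × (ℕ × ℕ)) : ℤ := (q.1.1 : ℤ) + q.1.2 - q.2.1 - q.2.2

def c0 (n : ℕ) : ℕ := ((quad n).filter fun q => ex q = 0).card

/-- no multiple `k s`, `1 ≤ k ≤ 2n`, vanishes. -/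
def Good (n : ℕ) (s : G) : Prop := ∀ k : ℕ, 1 ≤ k → k ≤ 2 * n → k • s ≠ 0

/-- no nontrivial relation `k s + l t = 0` with `|k|, |l| ≤ 2n`. -/
def Unc (n : ℕ) (s t : G) : Prop :=
  ∀ k l : ℤ, |k| ≤ 2 * n → |l| ≤ 2 * n → k • s + l • t = 0 → k = 0 ∧ l = 0

end DSB
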