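import Pool.Agent.DSB.Defs

/-! DSB / Ex: expectations over all characters. -/

set_option autoImplicit false

open Finset

namespace DSB

variable {G : Type*} [AddCommGroup G] [Fintype G]

private theorem conj_sum_aux (n : ℕ) (w : ℂ) (hw : ‖w‖ = 1) :
    (starRingEnd ℂ) (∑ k ∈ range n, w ^ k) = ∑ k ∈ range n, (w⁻¹) ^ k := by
  rw [map_sum]
  refine Finset.sum_congr rfl fun k _ => ?_
  rw [map_pow, Complex.inv_eq_conj hw]

private theorem normSq_aux (n : ℕ) (w : ℂ) (hw : ‖w‖ = 1) :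
    ((‖∑ k ∈ range n, w ^ k‖ ^ 2 : ℝ) : ℂ) =
      (∑ k ∈ range n, w ^ k) * (∑ k ∈ range n, (w⁻¹) ^ k) := by
  rw [← conj_sum_aux n w hw, Complex.mul_conj, Complex.normSq_eq_norm_sq]

private theorem ne_zero_aux {w : ℂ} (hw : ‖w‖ = 1) : w ≠ 0 := by
  intro h
  rw [h, norm_zero] at hw
  exact zero_ne_one hw

private theorem P_eq (n : ℕ) (w : ℂ) (hw : ‖w‖ = 1) :
    ((P n w : ℝ) : ℂ) = ∑ q ∈ range n ×ˢ range n, w ^ ((q.1 : ℤ) - q.2) := by
  have h0 := ne_zero_aux hw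
  unfold P
  rw [normSq_aux n w hw, Finset.sum_mul_sum, ← Finset.sum_product']
  refine Finset.sum_congr rfl fun q _ => ?_
  rw [zpow_sub₀ h0, zpow_natCast, zpow_natCast, inv_pow, div_eq_mul_inv]

theorem K_eq (n : ℕ) (w : ℂ) (hw : ‖w‖ = 1) : ((K n w : ℝ) : ℂ) = ∑ q ∈ quad n, w ^ (ex q) := by
  have h0 := ne_zero_aux hw
  have h1 : ((K n w : ℝ) : ℂ) =
      ((∑ k ∈ range n, w ^ k) * (∑ k ∈ range n, w ^ k)) *
        ((∑ k ∈ range n, (w⁻¹) ^ k) * (∑ k ∈ range n, (w⁻¹) ^ k)) := by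
    have h2 : K n w = ‖∑ k ∈ range n, w ^ k‖ ^ 2 * ‖∑ k ∈ range n, w ^ k‖ ^ 2 := by
      unfold K
      ring
    rw [h2, Complex.ofReal_mul, normSq_aux n w hw]
    ring
  rw [h1, Finset.sum_mul_sum, Finset.sum_mul_sum, ← Finset.sum_product', ← Finset.sum_product',
    Finset.sum_mul_sum, ← Finset.sum_product']
  unfold quad
  refine Finset.sum_congr rfl fun q _ => ?_
  unfold ex
  rw [zpow_sub₀ h0, zpow_sub₀ h0, zpow_add₀ h0, zpow_natCast, zpow_natCast, zpow_natCast,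
    zpow_natCast, inv_pow, inv_pow, div_eq_mul_inv, div_eq_mul_inv]
  ring

private theorem norm_aux (ψ : AddChar G ℂ) (s : G) (ζ : ℂ) (hζ : ‖ζ‖ = 1) : ‖ψ s * ζ‖ = 1 := by
  rw [norm_mul, hζ, AddChar.norm_apply, mul_one]

private theorem zpow_aux (ψ : AddChar G ℂ) (s : G) (ζ : ℂ) (e : ℤ) :
    (ψ s * ζ) ^ e = ψ (e • s) * ζ ^ e := by
  rw [mul_zpow, AddChar.map_zsmul_eq_zpow]

open Classical in
private theorem orth (x : G) :
    ∑ ψ : AddChar G ℂ, ψ x = if x = 0 then (Fintype.card G : ℂ) else 0 := by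
  have := AddChar.sum_apply_eq_ite (α := G) x
  simpa using this

open Classical in
/-- general expansion -/
private theorem expand {ι : Type*} (Q : Finset ι) (f : ι → G) (c : ι → ℂ) :
    ∑ ψ : AddChar G ℂ, ∑ q ∈ Q, ψ (f q) * c q =
      (Fintype.card G : ℂ) * ∑ q ∈ Q.filter (fun q => f q = 0), c q := by
  rw [Finset.sum_comm]
  have h : ∀ q ∈ Q, ∑ ψ : AddChar G ℂ, ψ (f q) * c q =
      if f q = 0 then (Fintype.card G : ℂ) * c q else 0 := by
    intro q _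
    rw [← Finset.sum_mul, orth]
    split_ifs <;> simp
  rw [Finset.sum_congr rfl h, ← Finset.sum_filter, Finset.mul_sum]

private theorem sm_nat {n : ℕ} {s : G} (hs : Good n s) {e : ℤ} (he : |e| ≤ 2 * n)
    (h : e • s = 0) : e = 0 := by
  by_contra hne
  have h1 : 1 ≤ e.natAbs := Nat.one_le_iff_ne_zero.mpr (Int.natAbs_ne_zero.mpr hne)
  have h2 : e.natAbs ≤ 2 * n := by
    have : ((e.natAbs : ℕ) : ℤ) ≤ 2 * n := by rw [Int.natCast_natAbs]; exact he
    exact_mod_cast this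
  refine hs e.natAbs h1 h2 ?_
  rcases Int.natAbs_eq e with h3 | h3
  · rw [← natCast_zsmul, ← h3, h]
  · have h4 : ((e.natAbs : ℕ) : ℤ) = - e := by omega
    rw [← natCast_zsmul, h4, neg_smul, h, neg_zero]

theorem sum_P (n : ℕ) (s : G) (hs : Good n s) (ζ : ℂ) (hζ : ‖ζ‖ = 1) :
    ∑ ψ : AddChar G ℂ, P n (ψ s * ζ) = (Fintype.card G : ℝ) * n := by
  classical
  have key : ((∑ ψ : AddChar G ℂ, P n (ψ s * ζ) : ℝ) : ℂ) = ((Fintype.card G : ℝ) * n : ℝ) := by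
    rw [Complex.ofReal_sum]
    have h1 : ∀ ψ : AddChar G ℂ, ((P n (ψ s * ζ) : ℝ) : ℂ) =
        ∑ q ∈ range n ×ˢ range n, ψ (((q.1 : ℤ) - q.2) • s) * ζ ^ ((q.1 : ℤ) - q.2) := by
      intro ψ
      rw [P_eq n _ (norm_aux ψ s ζ hζ)]
      exact Finset.sum_congr rfl fun q _ => zpow_aux ψ s ζ _
    rw [Finset.sum_congr rfl fun ψ _ => h1 ψ, expand]
    have h2 : (range n ×ˢ range n).filter (fun q => ((q.1 : ℤ) - q.2) • s = 0) =
        (range n).image (fun k => (k, k)) := by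
      ext ⟨a, b⟩
      simp only [Finset.mem_filter, Finset.mem_product, Finset.mem_range, Finset.mem_image,
        Prod.mk.injEq]
      constructor
      · rintro ⟨⟨ha, hb⟩, h⟩
        have := sm_nat hs (e := (a : ℤ) - b) (by rw [abs_le]; constructor <;> omega) h
        exact ⟨a, ha, rfl, by omega⟩
      · rintro ⟨k, hk, rfl, rfl⟩
        exact ⟨⟨hk, hk⟩, by simp⟩
    rw [h2, Finset.sum_image (by intro x _ y _ h; exact (Prod.mk.inj h).1)]
    simp
  exact_mod_cast key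

private theorem ex_abs {n : ℕ} {q : (ℕ × ℕ) × (ℕ × ℕ)} (hq : q ∈ quad n) :
    |ex q| ≤ 2 * n := by
  obtain ⟨⟨a, b⟩, ⟨c, d⟩⟩ := q
  simp only [quad, Finset.mem_product, Finset.mem_range] at hq
  simp only [ex]
  rw [abs_le]
  constructor <;> omega

theorem sum_K (n : ℕ) (s : G) (hs : Good n s) (ζ : ℂ) (hζ : ‖ζ‖ = 1) :
    ∑ ψ : AddChar G ℂ, K n (ψ s * ζ) = (Fintype.card G : ℝ) * c0 n := by
  classical
  have key : ((∑ ψ : AddChar G ℂ, K n (ψ s * ζ) : ℝ) : ℂ) =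
      ((Fintype.card G : ℝ) * c0 n : ℝ) := by
    rw [Complex.ofReal_sum]
    have h1 : ∀ ψ : AddChar G ℂ, ((K n (ψ s * ζ) : ℝ) : ℂ) =
        ∑ q ∈ quad n, ψ (ex q • s) * ζ ^ (ex q) := by
      intro ψ
      rw [K_eq n _ (norm_aux ψ s ζ hζ)]
      exact Finset.sum_congr rfl fun q _ => zpow_aux ψ s ζ _
    rw [Finset.sum_congr rfl fun ψ _ => h1 ψ, expand]
    have h2 : (quad n).filter (fun q => ex q • s = 0) = (quad n).filter (fun q => ex q = 0) := by
      refine Finset.filter_congr fun q hq => ?_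
      constructor
      · intro h
        exact sm_nat hs (ex_abs hq) h
      · intro h
        rw [h, zero_smul]
    rw [h2]
    have h3 : ∑ q ∈ (quad n).filter (fun q => ex q = 0), ζ ^ (ex q) = (c0 n : ℂ) := by
      rw [c0, Finset.sum_congr rfl (g := fun _ => (1 : ℂ))]
      · simp
      · intro q hq
        rw [(Finset.mem_filter.mp hq).2, zpow_zero]
    rw [h3]
    simp
  exact_mod_cast key

theorem sum_KK (n : ℕ) (s t : G) (hst : Unc n s t) (ζ : ℂ) (hζ : ‖ζ‖ = 1) :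
    ∑ ψ : AddChar G ℂ, K n (ψ s * ζ) * K n (ψ t * ζ) = (Fintype.card G : ℝ) * (c0 n : ℝ) ^ 2 := by
  classical
  have key : ((∑ ψ : AddChar G ℂ, K n (ψ s * ζ) * K n (ψ t * ζ) : ℝ) : ℂ) =
      ((Fintype.card G : ℝ) * (c0 n : ℝ) ^ 2 : ℝ) := by
    rw [Complex.ofReal_sum]
    have h1 : ∀ ψ : AddChar G ℂ, ((K n (ψ s * ζ) * K n (ψ t * ζ) : ℝ) : ℂ) =
        ∑ q ∈ quad n ×ˢ quad n,
          ψ (ex q.1 • s + ex q.2 • t) * (ζ ^ (ex q.1) * ζ ^ (ex q.2)) := by
      intro ψ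
      rw [Complex.ofReal_mul, K_eq n _ (norm_aux ψ s ζ hζ), K_eq n _ (norm_aux ψ t ζ hζ),
        Finset.sum_mul_sum, ← Finset.sum_product']
      refine Finset.sum_congr rfl fun q _ => ?_
      rw [zpow_aux, zpow_aux, AddChar.map_add_eq_mul]
      ring
    rw [Finset.sum_congr rfl fun ψ _ => h1 ψ, expand]
    have h2 : (quad n ×ˢ quad n).filter (fun q => ex q.1 • s + ex q.2 • t = 0) =
        ((quad n).filter (fun q => ex q = 0)) ×ˢ ((quad n).filter (fun q => ex q = 0)) := by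
      ext q
      simp only [Finset.mem_filter, Finset.mem_product]
      constructor
      · rintro ⟨⟨ha, hb⟩, h⟩
        have := hst _ _ (ex_abs ha) (ex_abs hb) h
        exact ⟨⟨ha, this.1⟩, ⟨hb, this.2⟩⟩
      · rintro ⟨⟨ha, ha'⟩, ⟨hb, hb'⟩⟩
        exact ⟨⟨ha, hb⟩, by rw [ha', hb', zero_smul, zero_smul, add_zero]⟩
    rw [h2]
    have h3 : ∑ q ∈ ((quad n).filter (fun q => ex q = 0)) ×ˢ ((quad n).filter (fun q => ex q = 0)),
        ζ ^ (ex q.1) * ζ ^ (ex q.2) = (c0 n : ℂ) ^ 2 := by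
      rw [Finset.sum_congr rfl (g := fun _ => (1 : ℂ))]
      · simp [c0, sq]
      · intro q hq
        rw [Finset.mem_product] at hq
        rw [(Finset.mem_filter.mp hq.1).2, (Finset.mem_filter.mp hq.2).2, zpow_zero, mul_one]
    rw [h3]
    simp
  exact_mod_cast key

end DSB
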