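import Pool.Agent.DSB.St
import Pool.Agent.DSB.An

/-! DSB / Iter: iteration. -/

set_option autoImplicit false

open Finset

namespace DSB

variable {G : Type*} [AddCommGroup G] [Fintype G]

open Classical in
theorem iter (n T J N : ℕ) (hn : 1 ≤ n)
    (hT : ∀ k : ℕ, 1 ≤ k → k ≤ 2 * n → (Finset.univ.filter fun x : G => k • x = 0).card ≤ T)
    (ρ : ℝ) (hρ : 0 < ρ) (h4 : 2 ^ J * (J + N + 1) * ρ < 4)
    (h3 : (128 * (J + 1) : ℝ) ≤ (n : ℝ) ^ 2 * ρ ^ 2) (R : ℕ) (hR : R * J ≤ N) (A : Finset G)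
    (hA : ∀ s ∈ A, Good n s) (hA2 : (J + 1) * (800 * n ^ 3 * T) * (8 * n) ^ R ≤ A.card) :
    ∃ B : Finset G, B ⊆ A ∧ B.card = R * J ∧ Pool.Agent.Helper81.Dissoc.Dissociated B := by
  have hT1 : 1 ≤ T := by
    refine le_trans ?_ (hT 1 le_rfl (by omega))
    rw [Nat.one_le_iff_ne_zero, Ne, Finset.card_eq_zero]
    intro h
    have h0 : (0 : G) ∈ Finset.univ.filter fun x : G => (1 : ℕ) • x = 0 := by simp
    rw [h] at h0
    exact Finset.notMem_empty _ h0
  induction R generalizing A with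
  | zero =>
    exact ⟨∅, Finset.empty_subset _, by simp, Pool.Agent.Helper81.Dissoc.dissociated_empty⟩
  | succ R ih =>
    have hpos : 0 < (J + 1) * (800 * n ^ 3 * T) := by positivity
    have h1 : (J + 1) * (800 * n ^ 3 * T) ≤ A.card := by
      refine le_trans ?_ hA2
      exact Nat.le_mul_of_pos_right _ (by positivity)
    have hne : A.Nonempty := by
      rw [← Finset.card_pos]
      omega
    set ζ : ℕ → ℂ := fun i =>
      Complex.exp (-(2 * Real.pi * ((2 ^ i * (J + N + 1) * ρ / 4 : ℝ) : ℂ) * Complex.I)) with hζ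
    set Z : Finset ℂ := insert 1 ((range J).image ζ) with hZdef
    have hZ : ∀ z ∈ Z, ‖z‖ = 1 := by
      intro z hz
      rw [hZdef, Finset.mem_insert, Finset.mem_image] at hz
      rcases hz with rfl | ⟨i, _, rfl⟩
      · exact norm_one
      · rw [hζ]
        have : (-(2 * Real.pi * ((2 ^ i * (J + N + 1) * ρ / 4 : ℝ) : ℂ) * Complex.I)) =
            ((-(2 * Real.pi * (2 ^ i * (J + N + 1) * ρ / 4)) : ℝ) : ℂ) * Complex.I := by
          push_cast
          ring
        simp only [this]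
        exact Complex.norm_exp_ofReal_mul_I _
    have hz : Z.card ≤ J + 1 := by
      rw [hZdef]
      refine le_trans (Finset.card_insert_le _ _) ?_
      have := Finset.card_image_le (s := range J) (f := ζ)
      rw [Finset.card_range] at this
      omega
    have h2 : (128 * ((J + 1 : ℕ) : ℝ)) ≤ (n : ℝ) ^ 2 * ρ ^ 2 := by
      push_cast
      exact h3
    obtain ⟨ψ, hψ⟩ := step n T (J + 1) hn hT A hne hA ρ hρ Z hZ hz h1 h2
    set A' : Finset G := A.filter fun s => ‖ψ s * 1 - 1‖ ≤ ρ with hA'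
    have hA'card : A.card ≤ 8 * n * A'.card := (hψ 1 (by rw [hZdef]; simp)).2
    have hA'2 : (J + 1) * (800 * n ^ 3 * T) * (8 * n) ^ R ≤ A'.card := by
      have h5 : 8 * n * ((J + 1) * (800 * n ^ 3 * T) * (8 * n) ^ R) ≤ 8 * n * A'.card := by
        refine le_trans (le_of_eq ?_) (le_trans hA2 hA'card)
        ring
      exact Nat.le_of_mul_le_mul_left h5 (by omega)
    have hR' : R * J ≤ N := le_trans (Nat.mul_le_mul_right J (Nat.le_succ R)) hR
    obtain ⟨B', hB'A, hB'c, hB'd⟩ := ih hR' A' (fun s hs => hA s (Finset.mem_of_mem_filter s hs))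
      hA'2
    have hb0 : ∀ i : ℕ, i < J → ∃ s : G, s ∈ A ∧ ‖ψ s * ζ i - 1‖ ≤ ρ := by
      intro i hi
      obtain ⟨s, hs⟩ := (hψ (ζ i) (by
        rw [hZdef]
        exact Finset.mem_insert_of_mem (Finset.mem_image_of_mem ζ (Finset.mem_range.mpr hi)))).1
      exact ⟨s, (Finset.mem_filter.mp hs).1, (Finset.mem_filter.mp hs).2⟩
    choose! b hb using hb0
    obtain ⟨B, hBc, hBm, hBd⟩ := add_block ψ J N ρ hρ h4 B' hB'd (by rw [hB'c]; exact hR')
      (fun s hs => by
        have := (Finset.mem_filter.mp (hB'A hs)).2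
        rwa [mul_one] at this) b (fun i hi => (hb i hi).2)
    refine ⟨B, ?_, ?_, hBd⟩
    · intro x hx
      rcases hBm x hx with h | ⟨i, hi, rfl⟩
      · exact Finset.mem_of_mem_filter x (hB'A h)
      · exact (hb i hi).1
    · rw [hBc, hB'c]
      ring

end DSB
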