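import Pool.Agent.DSB.Defs

/-! DSB / Ke: elementary bounds for the kernel.

PROOF. `K_le`: triangle inequality, `‖∑‖ ≤ n`. `K_mul_le`: `(w - 1) ∑_{k<n} w^k = w^n - 1` (`mul_geom_sum`), so
`‖∑‖² ‖w-1‖² = ‖w^n - 1‖² ≤ 4`, and `K = ‖∑‖² * P`. `c0_ge`: for every value `v` of `a + b`, `0 ≤ v ≤ 2n - 2`, let `r v` be
the number of `(a,b) ∈ [0,n)²` with `a + b = v`; `∑_v r v = n²`, `c0 n = ∑_v (r v)²`, Cauchy-Schwarz
(`sq_sum_le_card_mul_sum_sq`): `n⁴ ≤ (2n - 1) c0 n ≤ 2 n c0 n`. -/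

set_option autoImplicit false

open Finset

namespace DSB

theorem K_le (n : ℕ) (w : ℂ) (hw : ‖w‖ = 1) : K n w ≤ (n : ℝ) ^ 4 := by
  unfold K
  refine pow_le_pow_left₀ (norm_nonneg _) ?_ 4
  calc ‖∑ k ∈ range n, w ^ k‖ ≤ ∑ k ∈ range n, ‖w ^ k‖ := norm_sum_le _ _
    _ = n := by
        rw [sum_congr rfl (fun k _ => by rw [norm_pow, hw, one_pow]), sum_const, card_range,
          nsmul_eq_mul, mul_one]

theorem K_mul_le (n : ℕ) (w : ℂ) (hw : ‖w‖ = 1) : K n w * ‖w - 1‖ ^ 2 ≤ 4 * P n w := by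
  have h1 : (w - 1) * ∑ k ∈ range n, w ^ k = w ^ n - 1 := mul_geom_sum w n
  have h2 : ‖w - 1‖ ^ 2 * ‖∑ k ∈ range n, w ^ k‖ ^ 2 = ‖w ^ n - 1‖ ^ 2 := by
    rw [← mul_pow, ← norm_mul, h1]
  have h3 : ‖w ^ n - 1‖ ≤ 2 := by
    calc ‖w ^ n - 1‖ ≤ ‖w ^ n‖ + ‖(1 : ℂ)‖ := norm_sub_le _ _
      _ = 2 := by rw [norm_one, norm_pow, hw, one_pow]; norm_num
  have h4 : ‖w ^ n - 1‖ ^ 2 ≤ 4 := by nlinarith [norm_nonneg (w ^ n - 1)]
  unfold K P
  have h5 : ‖∑ k ∈ range n, w ^ k‖ ^ 4 * ‖w - 1‖ ^ 2 =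
      (‖w - 1‖ ^ 2 * ‖∑ k ∈ range n, w ^ k‖ ^ 2) * ‖∑ k ∈ range n, w ^ k‖ ^ 2 := by ring
  rw [h5, h2]
  exact mul_le_mul_of_nonneg_right h4 (by positivity)

theorem c0_ge (n : ℕ) (hn : 1 ≤ n) : n ^ 3 ≤ 2 * c0 n := by
  classical
  set B : Finset (ℕ × ℕ) := range n ×ˢ range n with hB
  set f : ℕ × ℕ → ℕ := fun p => p.1 + p.2 with hf
  have hmaps : ∀ p ∈ B, f p ∈ range (2 * n) := by
    intro p hp
    have h1 := mem_product.1 hp
    have h2 := mem_range.1 h1.1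
    have h3 := mem_range.1 h1.2
    rw [mem_range]
    show p.1 + p.2 < 2 * n
    omega
  have h1 : ∑ v ∈ range (2 * n), (B.filter fun p => f p = v).card = n ^ 2 := by
    rw [← card_eq_sum_card_fiberwise hmaps, hB, card_product, card_range, sq]
  have h2 : c0 n = ∑ v ∈ range (2 * n), (B.filter fun p => f p = v).card ^ 2 := by
    unfold c0
    rw [card_eq_sum_card_fiberwise (s := (quad n).filter fun q => ex q = 0) (t := range (2 * n))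
      (f := fun q => f q.1)]
    · refine sum_congr rfl fun v _ => ?_
      rw [sq, ← card_product]
      congr 1
      ext q
      simp only [mem_filter, mem_product, quad, hB, mem_range, ex, hf]
      constructor
      · rintro ⟨⟨⟨h3, h4⟩, h5⟩, h6⟩
        exact ⟨⟨h3, h6⟩, ⟨h4, by omega⟩⟩
      · rintro ⟨⟨h3, h6⟩, ⟨h4, h7⟩⟩
        exact ⟨⟨⟨h3, h4⟩, by omega⟩, h6⟩
    · intro q hq
      exact mem_coe.2 (hmaps _ (mem_product.1 (mem_filter.1 (mem_coe.1 hq)).1).1)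
  have h3 := sq_sum_le_card_mul_sum_sq (s := range (2 * n)) (f := fun v => (B.filter fun p => f p = v).card)
  rw [h1, card_range, ← h2] at h3
  have h4 : n * n ^ 3 ≤ n * (2 * c0 n) := by
    calc n * n ^ 3 = (n ^ 2) ^ 2 := by ring
      _ ≤ 2 * n * c0 n := h3
      _ = n * (2 * c0 n) := by ring
  exact Nat.le_of_mul_le_mul_left h4 hn

end DSB
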