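import Pool.Agent.DSB.Ke
import Pool.Agent.DSB.Ex

/-! DSB / Le: Markov for the part of the sum away from the window.

PROOF. For `‖ψ s ζ - 1‖ > ρ`: `K ≤ 4 P / ρ²` (`K_mul_le`). So the sum over `ψ` of the inner sum is at most
`∑_{s ∈ A} 4/ρ² ∑_ψ P n (ψ s ζ) = |A| |G| 4 n / ρ²` (`sum_P`). Markov: `bad * (|A| c/4) ≤ |A| |G| 4 n/ρ²`; divide by
`|A| > 0` and use `n³ ≤ 2 c`: `bad * n³ ρ² ≤ 32 n |G|`. -/

set_option autoImplicit false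

open Finset

namespace DSB

variable {G : Type*} [AddCommGroup G] [Fintype G]

open Classical in
theorem leak (n : ℕ) (hn : 1 ≤ n) (A : Finset G) (hne : A.Nonempty) (hA : ∀ s ∈ A, Good n s) (ρ : ℝ) (hρ : 0 < ρ)
    (ζ : ℂ) (hζ : ‖ζ‖ = 1) :
    ((Finset.univ.filter fun ψ : AddChar G ℂ =>
        (A.card : ℝ) * c0 n / 4 ≤ ∑ s ∈ A.filter (fun s => ρ < ‖ψ s * ζ - 1‖), K n (ψ s * ζ)).card : ℝ) *
      ((n : ℝ) ^ 2 * ρ ^ 2) ≤ 32 * Fintype.card G := by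
  set bad := Finset.univ.filter fun ψ : AddChar G ℂ =>
    (A.card : ℝ) * c0 n / 4 ≤ ∑ s ∈ A.filter (fun s => ρ < ‖ψ s * ζ - 1‖), K n (ψ s * ζ) with hbad
  have hP0 : ∀ w : ℂ, 0 ≤ P n w := fun w => by
    unfold P
    positivity
  have hK0 : ∀ w : ℂ, 0 ≤ K n w := fun w => by
    unfold K
    positivity
  have h1 : ∀ ψ : AddChar G ℂ,
      ρ ^ 2 * ∑ s ∈ A.filter (fun s => ρ < ‖ψ s * ζ - 1‖), K n (ψ s * ζ) ≤
        ∑ s ∈ A, 4 * P n (ψ s * ζ) := by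
    intro ψ
    rw [Finset.mul_sum]
    refine (Finset.sum_le_sum (g := fun s => 4 * P n (ψ s * ζ)) fun s hs => ?_).trans
      (Finset.sum_le_sum_of_subset_of_nonneg (Finset.filter_subset _ _)
        fun s _ _ => mul_nonneg (by norm_num) (hP0 _))
    have hs2 := (Finset.mem_filter.1 hs).2
    have hw : ‖ψ s * ζ‖ = 1 := by rw [norm_mul, hζ, AddChar.norm_apply, mul_one]
    have h2 := K_mul_le n (ψ s * ζ) hw
    have h3 : ρ ^ 2 ≤ ‖ψ s * ζ - 1‖ ^ 2 := by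
      apply pow_le_pow_left₀ hρ.le hs2.le
    have h4 := hK0 (ψ s * ζ)
    nlinarith
  have h2 : ∑ ψ : AddChar G ℂ, ∑ s ∈ A, 4 * P n (ψ s * ζ) =
      4 * (A.card * (Fintype.card G * n)) := by
    rw [Finset.sum_comm]
    rw [Finset.sum_congr rfl (fun s hs => by
      rw [← Finset.mul_sum, sum_P n s (hA s hs) ζ hζ])]
    rw [Finset.sum_const, nsmul_eq_mul]
    ring
  have h3 : (bad.card : ℝ) * ((A.card : ℝ) * c0 n / 4) ≤
      ∑ ψ : AddChar G ℂ, ∑ s ∈ A.filter (fun s => ρ < ‖ψ s * ζ - 1‖), K n (ψ s * ζ) := by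
    calc (bad.card : ℝ) * ((A.card : ℝ) * c0 n / 4) = ∑ _ψ ∈ bad, ((A.card : ℝ) * c0 n / 4) := by
          rw [Finset.sum_const, nsmul_eq_mul]
      _ ≤ ∑ ψ ∈ bad, ∑ s ∈ A.filter (fun s => ρ < ‖ψ s * ζ - 1‖), K n (ψ s * ζ) :=
          Finset.sum_le_sum fun ψ hψ => (Finset.mem_filter.1 hψ).2
      _ ≤ _ := Finset.sum_le_sum_of_subset_of_nonneg (Finset.subset_univ _)
          fun ψ _ _ => Finset.sum_nonneg fun s _ => hK0 _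
  have h4 : ρ ^ 2 * ((bad.card : ℝ) * ((A.card : ℝ) * c0 n / 4)) ≤
      4 * (A.card * (Fintype.card G * n)) := by
    calc ρ ^ 2 * ((bad.card : ℝ) * ((A.card : ℝ) * c0 n / 4)) ≤
        ρ ^ 2 * ∑ ψ : AddChar G ℂ, ∑ s ∈ A.filter (fun s => ρ < ‖ψ s * ζ - 1‖), K n (ψ s * ζ) :=
          mul_le_mul_of_nonneg_left h3 (sq_nonneg _)
      _ = ∑ ψ : AddChar G ℂ, ρ ^ 2 *
          ∑ s ∈ A.filter (fun s => ρ < ‖ψ s * ζ - 1‖), K n (ψ s * ζ) := Finset.mul_sum _ _ _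
      _ ≤ ∑ ψ : AddChar G ℂ, ∑ s ∈ A, 4 * P n (ψ s * ζ) := Finset.sum_le_sum fun ψ _ => h1 ψ
      _ = _ := h2
  have hAc : (0 : ℝ) < A.card := by exact_mod_cast hne.card_pos
  have hn0 : (0 : ℝ) < n := by exact_mod_cast hn
  have hc : (n : ℝ) ^ 3 ≤ 2 * c0 n := by exact_mod_cast c0_ge n hn
  have h5 : ρ ^ 2 * ((bad.card : ℝ) * (c0 n : ℝ)) ≤ 16 * (Fintype.card G * n) := by
    have : (A.card : ℝ) * (ρ ^ 2 * ((bad.card : ℝ) * (c0 n : ℝ))) ≤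
        (A.card : ℝ) * (16 * (Fintype.card G * n)) := by nlinarith
    exact le_of_mul_le_mul_left this hAc
  have h6 : ρ ^ 2 * ((bad.card : ℝ) * (n : ℝ) ^ 3) ≤ 32 * (Fintype.card G * n) := by
    have h7 : ρ ^ 2 * ((bad.card : ℝ) * (n : ℝ) ^ 3) ≤ ρ ^ 2 * ((bad.card : ℝ) * (2 * c0 n)) := by
      gcongr
    linarith
  have h8 : (n : ℝ) * ((bad.card : ℝ) * ((n : ℝ) ^ 2 * ρ ^ 2)) ≤
      (n : ℝ) * (32 * (Fintype.card G : ℝ)) := by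
    have e1 : (n : ℝ) * ((bad.card : ℝ) * ((n : ℝ) ^ 2 * ρ ^ 2)) =
        ρ ^ 2 * ((bad.card : ℝ) * (n : ℝ) ^ 3) := by ring
    have e2 : (n : ℝ) * (32 * (Fintype.card G : ℝ)) = 32 * ((Fintype.card G : ℝ) * (n : ℝ)) := by
      ring
    rw [e1, e2]
    exact h6
  exact le_of_mul_le_mul_left h8 hn0

end DSB
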