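import Pool.Agent.DSB.Iter

/-! DSB / Lo: the lower bound with parameters.

PROOF. `T ≥ 1` (take `k = 1`: `0` is in the set). `A' = A.filter Good`: by `card_notGood`,
`|A'| ≥ |A| - 2 n T ≥ (J+1)(800 n³ T)(8n)^R` (as `2 n T ≤ 800 n³ T ≤ ...`). Apply `iter` to `A'`. -/

set_option autoImplicit false

open Finset

namespace DSB

variable {G : Type*} [AddCommGroup G] [Fintype G]

open Classical in
theorem lower (n T J N : ℕ) (hn : 1 ≤ n)
    (hT : ∀ k : ℕ, 1 ≤ k → k ≤ 2 * n → (Finset.univ.filter fun x : G => k • x = 0).card ≤ T)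
    (ρ : ℝ) (hρ : 0 < ρ) (h4 : 2 ^ J * (J + N + 1) * ρ < 4)
    (h3 : (128 * (J + 1) : ℝ) ≤ (n : ℝ) ^ 2 * ρ ^ 2) (R : ℕ) (hR : R * J ≤ N) (A : Finset G)
    (hA2 : (J + 1) * (1600 * n ^ 3 * T) * (8 * n) ^ R ≤ A.card) :
    ∃ B : Finset G, B ⊆ A ∧ B.card = R * J ∧ Pool.Agent.Helper81.Dissoc.Dissociated B := by
  have hT1 : 1 ≤ T := by
    refine le_trans ?_ (hT 1 le_rfl (by omega))
    rw [Nat.one_le_iff_ne_zero, ← Nat.pos_iff_ne_zero, Finset.card_pos]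
    exact ⟨0, by simp⟩
  have h1 := Finset.card_filter_add_card_filter_not (s := A) (fun s => Good n s)
  have h2 := card_notGood n T hT A
  have h5 : 2 * n * T ≤ (J + 1) * (800 * n ^ 3 * T) * (8 * n) ^ R := by
    have e1 : 1 ≤ (8 * n) ^ R := Nat.one_le_pow _ _ (by omega)
    have e2 : n ≤ n ^ 3 := Nat.le_self_pow (by norm_num) n
    calc 2 * n * T ≤ 2 * n ^ 3 * T := by gcongr
      _ ≤ 800 * n ^ 3 * T := by gcongr; norm_num
      _ ≤ (J + 1) * (800 * n ^ 3 * T) := Nat.le_mul_of_pos_left _ (by omega)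
      _ ≤ (J + 1) * (800 * n ^ 3 * T) * (8 * n) ^ R := Nat.le_mul_of_pos_right _ (by omega)
  have h6 : (J + 1) * (1600 * n ^ 3 * T) * (8 * n) ^ R =
      2 * ((J + 1) * (800 * n ^ 3 * T) * (8 * n) ^ R) := by ring
  obtain ⟨B, hB, hc, hd⟩ := iter n T J N hn hT ρ hρ h4 h3 R hR (A.filter fun s => Good n s)
    (fun s hs => (Finset.mem_filter.1 hs).2) (by omega)
  exact ⟨B, hB.trans (Finset.filter_subset _ _), hc, hd⟩

end DSB
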