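import Mathlib

/-! DSB / Pa: choice of the parameters.

PROOF. `L = logb 2 m`, `Λ = logb 2 L ≥ 1` (`m ≥ 4`), `r ≥ 1`, and `C sqrt (r L Λ) ≤ L`, i.e. `L ≥ C² r Λ` (so `L ≥ C²` is
large). `l = ⌈sqrt (L Λ / r)⌉` (so `l ≥ C Λ`, `l + 1 ≤ 2 sqrt (L Λ)`), `n = 2^l`, `N = ⌊L⌋`,
`j0 = ⌈3 Λ / 2⌉ + 4`, `J = l - j0` (`l ≥ j0 + 1`, since `l ≥ C Λ ≥ C`), `ρ = sqrt (128 (J+1)) / n` (so `h3` is an equality),
`R = ⌊(L - logb 2 (1600 (l+1)) - 3 l - r (l+1)) / (l+3)⌋` (the numerator is `≥ 0`: `r l ≤ r (sqrt (L Λ/r) + 1) =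
sqrt (r L Λ) + r ≤ L/C + L/C²`). Then
`(J+1) (1600 n³ (2n)^r) (8n)^R ≤ (l+1) 1600 2^(3l) 2^(r(l+1)) 2^((l+3)R) ≤ 2^L = m`; `R J ≤ R (l+3) ≤ L` so `R J ≤ N`;
`2^J (J+N+1) ρ = 2^(-j0) (J+N+1) sqrt (128(J+1))` and `J ≤ l ≤ L`, `N ≤ L`, `J+N+1 ≤ 2L+1 ≤ 2.5 L`,
`sqrt (128 (L+1)) ≤ 14 sqrt L`, `2^j0 ≥ 16 L^(3/2)`, so it is `≤ 35/16 < 4`. Finally
`R J ≥ ((L - logb 2 (1600(l+1)) - 3l - r(l+1))/(l+3) - 1) (l - j0) ≥ L - logb 2 (1600 (l+1)) - 3 l - r (l+1) - (l+3) -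
L (j0+3)/(l+3)`, and `L (j0 + 3)/(l+3) ≤ L (9 Λ)/l ≤ 9 Λ L / sqrt (L Λ/r) = 9 sqrt (r L Λ)`,
`r l ≤ sqrt (r L Λ) + r ≤ 2 sqrt (r L Λ)` (since `r ≤ L`), `l ≤ sqrt (LΛ) + 1`, `logb 2 (1600 (l+1)) ≤ 12 + Λ ≤ ...`; all
error terms are `≤ C sqrt (r L Λ)` for `C = 100` (any `C` will do). -/

set_option autoImplicit false

namespace DSB

theorem params :
    ∃ C : ℝ, 1 ≤ C ∧ ∀ m r : ℕ, 4 ≤ m → 1 ≤ r →
      C * Real.sqrt (r * Real.logb 2 m * Real.logb 2 (Real.logb 2 m)) ≤ Real.logb 2 m →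
      ∃ (n J N R : ℕ) (ρ : ℝ), 1 ≤ n ∧
        ((2 * n : ℕ) : ℝ) ≤ (2 : ℝ) ^ (2 * Real.sqrt (Real.logb 2 m * Real.logb 2 (Real.logb 2 m))) ∧ 0 < ρ ∧
        2 ^ J * (J + N + 1) * ρ < 4 ∧ (128 * (J + 1) : ℝ) ≤ (n : ℝ) ^ 2 * ρ ^ 2 ∧ R * J ≤ N ∧
        (J + 1) * (1600 * n ^ 3 * (2 * n) ^ r) * (8 * n) ^ R ≤ m ∧
        Real.logb 2 m - C * Real.sqrt (r * Real.logb 2 m * Real.logb 2 (Real.logb 2 m)) ≤ (R * J : ℕ) := by
  refine ⟨100, by norm_num, ?_⟩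
  intro m r hm hr hC
  have hm0 : (0 : ℝ) < m := by
    have : 0 < m := by omega
    exact_mod_cast this
  have h2L : (2 : ℝ) ^ (Real.logb 2 m) = m := Real.rpow_logb (by norm_num) (by norm_num) hm0
  generalize hL : Real.logb 2 (m : ℝ) = L at *
  have hL2 : 2 ≤ L := by
    rw [← hL, Real.le_logb_iff_rpow_le (by norm_num) hm0]
    have : (2 : ℝ) ^ (2 : ℝ) = 4 := by norm_num
    rw [this]
    exact_mod_cast hm
  have h2Λ : (2 : ℝ) ^ (Real.logb 2 L) = L :=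
    Real.rpow_logb (by norm_num) (by norm_num) (by linarith)
  have hΛ1 : 1 ≤ Real.logb 2 L := by
    rw [Real.le_logb_iff_rpow_le (by norm_num) (by linarith), Real.rpow_one]
    exact hL2
  generalize hΛ : Real.logb 2 L = Λ at *
  have hr1 : (1 : ℝ) ≤ r := by exact_mod_cast hr
  have hE2 : Real.sqrt (r * L * Λ) ^ 2 = r * L * Λ := Real.sq_sqrt (by positivity)
  have hE0 : 0 < Real.sqrt (r * L * Λ) := Real.sqrt_pos.2 (by positivity)
  generalize hE : Real.sqrt (r * L * Λ) = E at *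
  obtain ⟨s, hrs⟩ : ∃ s : ℝ, r * s = E := ⟨E / r, by field_simp⟩
  have h1 : 100 * r * Λ ≤ E := by
    have h : E * (100 * r * Λ) ≤ E * E := by
      have h' : E * E = r * L * Λ := by rw [← hE2, sq]
      rw [h']
      have h'' : (100 * E) * (r * Λ) ≤ L * (r * Λ) :=
        mul_le_mul_of_nonneg_right hC (by positivity)
      nlinarith
    exact le_of_mul_le_mul_left h hE0
  have hr0 : (0 : ℝ) < r := by linarith
  have hs : 100 * Λ ≤ s := by
    have : r * (100 * Λ) ≤ r * s := by rw [hrs]; linarith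
    exact le_of_mul_le_mul_left this hr0
  have hs100 : 100 ≤ s := by linarith
  have hsE : s ≤ E := by
    rw [← hrs]
    nlinarith
  have hLs : L * Λ = E * s := by
    have h : (r : ℝ) * (L * Λ) = r * (E * s) := by
      calc (r : ℝ) * (L * Λ) = E ^ 2 := by rw [hE2]; ring
        _ = (r * s) * E := by rw [hrs, sq]
        _ = r * (E * s) := by ring
    exact mul_left_cancel₀ hr0.ne' h
  have hsq : s ≤ Real.sqrt (L * Λ) := by
    rw [Real.le_sqrt (by linarith) (by positivity), hLs, sq]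
    exact mul_le_mul_of_nonneg_right hsE (by linarith)
  -- the numbers l and j0
  obtain ⟨l, hl1, hl2⟩ : ∃ l : ℕ, s ≤ l ∧ (l : ℝ) < s + 1 :=
    ⟨⌈s⌉₊, Nat.le_ceil s, Nat.ceil_lt_add_one (by linarith)⟩
  obtain ⟨j0, hj1, hj2⟩ : ∃ j : ℕ, 3 * Λ / 2 + 4 ≤ j ∧ (j : ℝ) < 3 * Λ / 2 + 5 := by
    refine ⟨⌈3 * Λ / 2⌉₊ + 4, ?_, ?_⟩
    · have := Nat.le_ceil (3 * Λ / 2)
      push_cast
      linarith
    · have := Nat.ceil_lt_add_one (a := 3 * Λ / 2) (by positivity)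
      push_cast
      linarith
  have hj0l : j0 + 1 ≤ l := by
    have : ((j0 + 1 : ℕ) : ℝ) ≤ (l : ℝ) := by
      push_cast
      linarith
    exact_mod_cast this
  obtain ⟨J, hJ⟩ : ∃ J : ℕ, J + j0 = l := ⟨l - j0, by omega⟩
  have hJr : (J : ℝ) + j0 = l := by exact_mod_cast hJ
  have hJ0 : (0 : ℝ) ≤ J := Nat.cast_nonneg J
  have hlL : (l : ℝ) + 1 ≤ L := by linarith
  have hlog : Real.logb 2 (1600 * ((l : ℝ) + 1)) ≤ 11 + Λ := by
    rw [Real.logb_le_iff_le_rpow (by norm_num) (by positivity), Real.rpow_add (by norm_num), h2Λ]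
    have : (2 : ℝ) ^ (11 : ℝ) = 2048 := by norm_num
    rw [this]
    nlinarith
  have hlog0 : 0 ≤ Real.logb 2 (1600 * ((l : ℝ) + 1)) := by
    apply Real.logb_nonneg (by norm_num)
    have : (0 : ℝ) ≤ l := Nat.cast_nonneg l
    linarith
  have h2log : (2 : ℝ) ^ (Real.logb 2 (1600 * ((l : ℝ) + 1))) = 1600 * ((l : ℝ) + 1) :=
    Real.rpow_logb (by norm_num) (by norm_num) (by positivity)
  generalize hB : Real.logb 2 (1600 * ((l : ℝ) + 1)) = B at *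
  -- the numerator
  obtain ⟨T, hT⟩ : ∃ T : ℝ, T = L - B - 3 * l - r * (l + 1) := ⟨_, rfl⟩
  have hrl : (r : ℝ) * (l + 1) ≤ 2 * E := by
    rw [← hrs]
    nlinarith
  have hTl : L - 9 * E ≤ T := by
    rw [hT]
    linarith
  have hT0 : 0 ≤ T := by linarith
  have hTL : T ≤ L := by
    rw [hT]
    have : 0 ≤ (r : ℝ) * (l + 1) := by positivity
    have : (0 : ℝ) ≤ l := Nat.cast_nonneg l
    linarith
  have hl0 : (0 : ℝ) ≤ l := Nat.cast_nonneg l
  have hl3 : (0 : ℝ) < l + 3 := by positivity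
  obtain ⟨R, hR1, hR2⟩ : ∃ R : ℕ, (R : ℝ) * (l + 3) ≤ T ∧ T < (R + 1) * (l + 3) := by
    refine ⟨⌊T / (l + 3)⌋₊, ?_, ?_⟩
    · rw [← le_div_iff₀ hl3]
      exact Nat.floor_le (by positivity)
    · rw [← div_lt_iff₀ hl3]
      exact Nat.lt_floor_add_one _
  have hR0 : (0 : ℝ) ≤ R := Nat.cast_nonneg R
  have hn0 : (0 : ℝ) < (2 : ℝ) ^ l := by positivity
  refine ⟨2 ^ l, J, ⌊L⌋₊, R, Real.sqrt (128 * (J + 1)) / (2 : ℝ) ^ l, Nat.one_le_two_pow, ?_, ?_,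
    ?_, ?_, ?_, ?_, ?_⟩
  · -- 2 n ≤ ...
    have h : ((2 * 2 ^ l : ℕ) : ℝ) = (2 : ℝ) ^ ((l : ℝ) + 1) := by
      rw [Real.rpow_add (by norm_num), Real.rpow_one, Real.rpow_natCast]
      push_cast
      ring
    rw [h]
    apply Real.rpow_le_rpow_of_exponent_le (by norm_num)
    linarith
  · positivity
  · -- 2 ^ J (J + N + 1) ρ < 4
    have hN : ((⌊L⌋₊ : ℕ) : ℝ) ≤ L := Nat.floor_le (by linarith)
    have hN0 : (0 : ℝ) ≤ (⌊L⌋₊ : ℕ) := Nat.cast_nonneg _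
    have hj4 : (4 : ℝ) ≤ j0 := by linarith
    have hJL : (J : ℝ) + 1 ≤ L := by linarith
    have e1 : (2 : ℝ) ^ l = 2 ^ J * 2 ^ j0 := by rw [← hJ, pow_add]
    have e2 : (16 : ℝ) * (L * Real.sqrt L) ≤ 2 ^ j0 := by
      have h3 : (2 : ℝ) ^ (3 * Λ / 2 + 4) ≤ (2 : ℝ) ^ j0 := by
        rw [← Real.rpow_natCast]
        exact Real.rpow_le_rpow_of_exponent_le (by norm_num) hj1
      have h4 : (2 : ℝ) ^ (3 * Λ / 2 + 4) = 16 * (L * Real.sqrt L) := by
        have h5 : 3 * Λ / 2 + 4 = Λ + Λ * (1 / 2) + 4 := by ring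
        rw [h5, Real.rpow_add (by norm_num), Real.rpow_add (by norm_num),
          Real.rpow_mul (by norm_num), h2Λ, ← Real.sqrt_eq_rpow]
        have h6 : (2 : ℝ) ^ (4 : ℝ) = 16 := by norm_num
        rw [h6]
        ring
      linarith
    have e3 : Real.sqrt (128 * ((J : ℝ) + 1)) ≤ 12 * Real.sqrt L := by
      have h3 : Real.sqrt (128 * ((J : ℝ) + 1)) ≤ Real.sqrt (144 * L) :=
        Real.sqrt_le_sqrt (by nlinarith)
      have h4 : Real.sqrt (144 * L) = 12 * Real.sqrt L := by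
        rw [Real.sqrt_mul (by norm_num)]
        have h5 : Real.sqrt 144 = 12 := by
          rw [show (144 : ℝ) = 12 ^ 2 by norm_num]
          exact Real.sqrt_sq (by norm_num)
        rw [h5]
      linarith
    have hJp : (0 : ℝ) < 2 ^ J := by positivity
    have hjp : (0 : ℝ) < 2 ^ j0 := by positivity
    have e4 : (2 : ℝ) ^ J * (J + (⌊L⌋₊ : ℕ) + 1) * (Real.sqrt (128 * (J + 1)) / (2 : ℝ) ^ l)
        = (J + (⌊L⌋₊ : ℕ) + 1) * Real.sqrt (128 * (J + 1)) / 2 ^ j0 := by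
      rw [e1]
      field_simp
    rw [e4, div_lt_iff₀ hjp]
    have hsL : 0 < Real.sqrt L := Real.sqrt_pos.2 (by linarith)
    calc ((J : ℝ) + (⌊L⌋₊ : ℕ) + 1) * Real.sqrt (128 * (J + 1))
        ≤ (2 * L) * (12 * Real.sqrt L) :=
          mul_le_mul (by linarith) e3 (Real.sqrt_nonneg _) (by linarith)
      _ < 4 * (16 * (L * Real.sqrt L)) := by
          have : 0 < L * Real.sqrt L := by positivity
          linarith
      _ ≤ 4 * 2 ^ j0 := by linarith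
  · -- 128 (J + 1) ≤ n² ρ²
    have h : (((2 ^ l : ℕ) : ℝ)) ^ 2 * (Real.sqrt (128 * (J + 1)) / (2 : ℝ) ^ l) ^ 2
        = 128 * (J + 1) := by
      rw [div_pow, Real.sq_sqrt (by positivity)]
      push_cast
      field_simp
    exact h.ge
  · -- R J ≤ N
    apply Nat.le_floor
    push_cast
    have hjn : (0 : ℝ) ≤ j0 := Nat.cast_nonneg _
    have hJ3 : (J : ℝ) ≤ l + 3 := by linarith
    have : (R : ℝ) * J ≤ R * (l + 3) := mul_le_mul_of_nonneg_left hJ3 hR0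
    linarith
  · -- the product is at most m
    have h : (((J + 1) * (1600 * (2 ^ l) ^ 3 * (2 * 2 ^ l) ^ r) * (8 * 2 ^ l) ^ R : ℕ) : ℝ)
        ≤ (m : ℝ) := by
      have e1 : (((J + 1) * (1600 * (2 ^ l) ^ 3 * (2 * 2 ^ l) ^ r) * (8 * 2 ^ l) ^ R : ℕ) : ℝ)
          = (1600 * ((J : ℝ) + 1)) * (2 : ℝ) ^ (3 * (l : ℝ) + r * (l + 1) + R * (l + 3)) := by
        have e2 : (3 * (l : ℝ) + r * (l + 1) + R * (l + 3))
            = ((3 * l + r * (l + 1) + R * (l + 3) : ℕ) : ℝ) := by push_cast; ring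
        rw [e2, Real.rpow_natCast]
        push_cast
        have e3 : (2 : ℝ) ^ (3 * l + r * (l + 1) + R * (l + 3))
            = ((2 : ℝ) ^ l) ^ 3 * (2 * 2 ^ l) ^ r * (8 * 2 ^ l) ^ R := by
          rw [pow_add, pow_add]
          congr 1
          · congr 1
            · rw [mul_comm 3 l, pow_mul]
            · rw [mul_comm r (l + 1), pow_mul, pow_succ, mul_comm]
          · rw [mul_comm R (l + 3), pow_mul, pow_add]
            congr 1
            norm_num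
            ring
        rw [e3]
        ring
      rw [e1]
      have hjn : (0 : ℝ) ≤ j0 := Nat.cast_nonneg _
      calc (1600 * ((J : ℝ) + 1)) * (2 : ℝ) ^ (3 * (l : ℝ) + r * (l + 1) + R * (l + 3))
          ≤ (1600 * ((l : ℝ) + 1)) * (2 : ℝ) ^ (3 * (l : ℝ) + r * (l + 1) + R * (l + 3)) := by
            apply mul_le_mul_of_nonneg_right _ (by positivity)
            linarith
        _ = (2 : ℝ) ^ (B + (3 * (l : ℝ) + r * (l + 1) + R * (l + 3))) := by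
            rw [Real.rpow_add (by norm_num) B, h2log]
        _ ≤ (2 : ℝ) ^ L := by
            apply Real.rpow_le_rpow_of_exponent_le (by norm_num)
            rw [hT] at hR1
            linarith
        _ = m := h2L
    exact_mod_cast h
  · -- the lower bound for R J
    push_cast
    have hJl : (J : ℝ) = l - j0 := by linarith
    have hkey : (L * (j0 + 3)) / (l + 3) ≤ 10 * E := by
      rw [div_le_iff₀ hl3]
      have h5 : L * ((j0 : ℝ) + 3) ≤ L * (10 * Λ) := mul_le_mul_of_nonneg_left (by linarith) (by linarith)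
      have h6 : L * (10 * Λ) = 10 * E * s := by linarith
      have h7 : 10 * E * s ≤ 10 * E * (l + 3) := mul_le_mul_of_nonneg_left (by linarith) (by linarith)
      linarith
    have hjn : (0 : ℝ) ≤ j0 := Nat.cast_nonneg _
    have h8 : T * (j0 + 3) / (l + 3) ≤ 10 * E := by
      refine le_trans ?_ hkey
      apply div_le_div_of_nonneg_right _ hl3.le
      exact mul_le_mul_of_nonneg_right hTL (by linarith)
    have h9 : T / (l + 3) - 1 ≤ R := by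
      have : T / (l + 3) < R + 1 := by rwa [div_lt_iff₀ hl3]
      linarith
    have h10 : (T / (l + 3) - 1) * J ≤ R * J := mul_le_mul_of_nonneg_right h9 hJ0
    have h11 : (T / (l + 3) - 1) * J = T - T * (j0 + 3) / (l + 3) - J := by
      rw [hJl]
      field_simp
      ring
    have h12 : (J : ℝ) ≤ 2 * E := by linarith
    linarith

end DSB
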