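import Mathlib

/-! DSB / Rk: torsion in terms of the number of generators.

PROOF. `S` generates `G`, `|S| ≤ r`, `k ≥ 1`. The kernel of `x ↦ k x` has the same number of elements as the cokernel
`G / k G` (`|G| = |ker| |range|`, `|G| = |range| |G/range|`). `G / kG` is generated by the `≤ r` images `s`, each killed by
`k`, so the map `(S → Fin k) → G/kG`, `f ↦ ∑ f s • s`, is onto (every element of `G` is `∑ a_s s`, `a_s ∈ ℤ`, reduce
modulo `k`), and `|G/kG| ≤ k^|S| ≤ k^r` (`k ≥ 1`). -/

set_option autoImplicit false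

open Finset

namespace DSB

theorem Rk.exists_coeff {G : Type*} [AddCommGroup G] (S : Finset G)
    (hS : AddSubgroup.closure (S : Set G) = ⊤) (x : G) :
    ∃ a : G → ℤ, x = ∑ s ∈ S, a s • s := by
  classical
  have hx : x ∈ AddSubgroup.closure (S : Set G) := by rw [hS]; trivial
  induction hx using AddSubgroup.closure_induction with
  | mem y hy =>
    refine ⟨fun s => if s = y then 1 else 0, ?_⟩
    rw [Finset.sum_eq_single_of_mem y (by exact_mod_cast hy)]
    · simp
    · intro b _ hb
      simp [hb]
  | zero => exact ⟨fun _ => 0, by simp⟩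
  | add y z _ _ hy hz =>
    obtain ⟨a, ha⟩ := hy
    obtain ⟨b, hb⟩ := hz
    refine ⟨fun s => a s + b s, ?_⟩
    simp only [add_smul, Finset.sum_add_distrib]
    rw [← ha, ← hb]
  | neg y _ hy =>
    obtain ⟨a, ha⟩ := hy
    refine ⟨fun s => -a s, ?_⟩
    simp only [neg_smul, Finset.sum_neg_distrib]
    rw [← ha]

open Classical in
theorem torsion_le {G : Type*} [AddCommGroup G] [Fintype G] (r : ℕ) (S : Finset G)
    (hS : AddSubgroup.closure (S : Set G) = ⊤) (hr : S.card ≤ r) (k : ℕ) (hk : 1 ≤ k) :
    (Finset.univ.filter fun x : G => k • x = 0).card ≤ k ^ r := by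
  set f : G →+ G := nsmulAddMonoidHom k with hf
  have h1 : (Finset.univ.filter fun x : G => k • x = 0).card = Nat.card f.ker := by
    rw [Nat.card_eq_fintype_card, ← Fintype.card_subtype]
    refine Fintype.card_congr (Equiv.subtypeEquivRight fun x => ?_)
    rw [AddMonoidHom.mem_ker, hf, nsmulAddMonoidHom_apply]
  have h2 : Nat.card f.ker = f.range.index := by
    have e1 := AddSubgroup.card_mul_index f.ker
    rw [AddSubgroup.index_ker] at e1
    have e2 := AddSubgroup.card_mul_index f.range
    have e3 : 0 < Nat.card f.range := Nat.card_pos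
    have e4 : Nat.card f.range * Nat.card f.ker = Nat.card f.range * f.range.index := by
      rw [e2, mul_comm]; exact e1
    exact Nat.eq_of_mul_eq_mul_left e3 e4
  have h3 : f.range.index ≤ k ^ S.card := by
    have hk0 : (k : ℤ) ≠ 0 := by exact_mod_cast (by omega : k ≠ 0)
    have e1 : Nat.card (S → Fin k) = k ^ S.card := by
      rw [Nat.card_eq_fintype_card, Fintype.card_fun, Fintype.card_fin, Fintype.card_coe]
    rw [← e1]
    refine Nat.card_le_card_of_surjective
      (fun c : S → Fin k => (QuotientAddGroup.mk (∑ s : S, (c s : ℕ) • (s : G)) : G ⧸ f.range)) ?_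
    intro y
    obtain ⟨x, rfl⟩ := QuotientAddGroup.mk_surjective y
    obtain ⟨a, ha⟩ := Rk.exists_coeff S hS x
    refine ⟨fun s => ⟨(a s % k).toNat, ?_⟩, ?_⟩
    · have e2 := Int.emod_nonneg (a s) hk0
      have e3 := Int.emod_lt_of_pos (a s) (by omega : (0 : ℤ) < k)
      omega
    · rw [QuotientAddGroup.eq]
      refine ⟨∑ s : S, (a s / k) • (s : G), ?_⟩
      rw [hf]
      simp only [nsmulAddMonoidHom_apply]
      rw [ha, ← Finset.sum_coe_sort S (fun s => a s • s), eq_neg_add_iff_add_eq, Finset.smul_sum,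
        ← Finset.sum_add_distrib]
      refine Finset.sum_congr rfl fun s _ => ?_
      have e2 := Int.emod_nonneg (a s) hk0
      rw [← natCast_zsmul, ← natCast_zsmul, Int.toNat_of_nonneg e2, smul_smul, ← add_smul]
      congr 1
      have := Int.emod_add_mul_ediv (a s) k
      linarith
  rw [h1, h2]
  exact h3.trans (Nat.pow_le_pow_right hk hr)

end DSB
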