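import Mathlib

/-! DSB / Un: numeric part of the upper bound.

PROOF. `L = logb 2 m ≥ 2`. From `2^d ≤ 2 (d+1) m`: `d ≤ 1 + logb 2 (d+1) + L`. Since `logb 2 (d+1) ≤ d/2 + 2` (e.g.
`d + 1 ≤ 4 * 2^(d/2)`), `d ≤ 2 L + 6`, so `d + 1 ≤ 2L + 7 ≤ 6 L`, `logb 2 (d+1) ≤ logb 2 6 + logb 2 L ≤ 3 + logb 2 L`, and
`d ≤ L + logb 2 L + 4`. -/

set_option autoImplicit false

namespace DSB

theorem sq_le_aux (d : ℕ) : (d + 1) ^ 2 ≤ 16 * 2 ^ d := by
  induction d with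
  | zero => norm_num
  | succ n ih =>
    rcases Nat.lt_or_ge n 2 with h | h
    · interval_cases n <;> norm_num
    · have h1 : (n + 1 + 1) ^ 2 ≤ 2 * (n + 1) ^ 2 := by nlinarith
      calc (n + 1 + 1) ^ 2 ≤ 2 * (n + 1) ^ 2 := h1
        _ ≤ 2 * (16 * 2 ^ n) := by omega
        _ = 16 * 2 ^ (n + 1) := by ring

theorem upper_num (m d : ℕ) (hm : 4 ≤ m) (h : 2 ^ d ≤ 2 * (d + 1) * m) :
    (d : ℝ) ≤ Real.logb 2 m + Real.logb 2 (Real.logb 2 m) + 4 := by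
  have hm0 : (0 : ℝ) < m := by positivity
  have hL : 2 ≤ Real.logb 2 m := by
    rw [Real.le_logb_iff_rpow_le (by norm_num) hm0]
    have : (4 : ℝ) ≤ m := by exact_mod_cast hm
    norm_num
    linarith
  have h1 : (2 : ℝ) ^ d ≤ 2 * (d + 1) * m := by exact_mod_cast h
  have h2 : (2 : ℝ) ^ d ≤ 64 * (m : ℝ) ^ 2 := by
    have h3 : ((d : ℝ) + 1) ^ 2 ≤ 16 * 2 ^ d := by exact_mod_cast sq_le_aux d
    have h4 : (2 : ℝ) ^ d * 2 ^ d ≤ 2 ^ d * (64 * (m : ℝ) ^ 2) := by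
      calc (2 : ℝ) ^ d * 2 ^ d ≤ (2 * (d + 1) * m) * (2 * (d + 1) * m) :=
            mul_le_mul h1 h1 (by positivity) (by positivity)
        _ = 4 * m ^ 2 * ((d : ℝ) + 1) ^ 2 := by ring
        _ ≤ 4 * m ^ 2 * (16 * 2 ^ d) := by gcongr
        _ = 2 ^ d * (64 * (m : ℝ) ^ 2) := by ring
    exact le_of_mul_le_mul_left h4 (by positivity)
  have hd2 : (d : ℝ) ≤ 6 + 2 * Real.logb 2 m := by
    have h5 : Real.logb 2 ((2 : ℝ) ^ d) ≤ Real.logb 2 (64 * (m : ℝ) ^ 2) :=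
      Real.logb_le_logb_of_le (by norm_num) (by positivity) h2
    rw [Real.logb_mul (by norm_num) (by positivity), Real.logb_pow, Real.logb_pow] at h5
    have h6 : Real.logb 2 2 = 1 := Real.logb_self_eq_one (by norm_num)
    have h7 : Real.logb 2 (64 : ℝ) = 6 := by
      rw [show (64 : ℝ) = 2 ^ 6 by norm_num, Real.logb_pow, h6]; norm_num
    rw [h6, h7] at h5
    push_cast at h5
    linarith
  have h8 : Real.logb 2 ((2 : ℝ) ^ d) ≤ Real.logb 2 (2 * (d + 1) * m) :=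
    Real.logb_le_logb_of_le (by norm_num) (by positivity) h1
  have h6 : Real.logb 2 2 = 1 := Real.logb_self_eq_one (by norm_num)
  rw [Real.logb_mul (by positivity) (by positivity), Real.logb_mul (by norm_num) (by positivity),
    Real.logb_pow, h6] at h8
  have h9 : Real.logb 2 ((d : ℝ) + 1) ≤ Real.logb 2 (8 * Real.logb 2 m) := by
    apply Real.logb_le_logb_of_le (by norm_num) (by positivity)
    linarith
  rw [Real.logb_mul (by norm_num) (by positivity)] at h9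
  have h10 : Real.logb 2 (8 : ℝ) = 3 := by
    rw [show (8 : ℝ) = 2 ^ 3 by norm_num, Real.logb_pow, h6]; norm_num
  rw [h10] at h9
  linarith

end DSB
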