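import Pool.Agent.Helper81.Dissoc.Basic

/-! DSB / Up: the upper bound.

PROOF. `upper_set`: let `H` be a subgroup of `G` of maximal order among those of order `≤ m` (the trivial subgroup has
order `1 ≤ m`). If `H = ⊤` then `m = |G|`, `A = univ` (or any), and `2^|B| ≤ |G| = m` (`Dissociated.card_le_log`, or the
distinct subset sums `Dissociated.sum_injOn`). Otherwise take `g ∉ H`; `H + ℤ g` has order `> m`, and its order is `|H| q`,
`q` = the order of `g` modulo `H`. Let `M = ⌈m/|H|⌉`, so `|H| (M-1) < m ≤ |H| M`, `M ≤ q`, `|H| M < m + |H| ≤ 2m`. The set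
`Q = {h + x g : h ∈ H, 0 ≤ x < M}` has `|H| M ≥ m` elements; let `A ⊆ Q`, `|A| = m`. For `B ⊆ A` dissociated,
`d = |B| ≥ 1`, all `2^d` subset sums are distinct (`Dissociated.sum_injOn`) and lie in `{h + x g : 0 ≤ x ≤ d (M-1)}`,
which has at most `|H| (d (M-1) + 1) ≤ d |H| M ≤ 2 d m` elements. -/

set_option autoImplicit false

open Finset

namespace DSB

/-- if `j g ∈ H` then `H + ℤ g` has at most `|H| j` elements. -/
theorem Up.card_sup_le {G : Type*} [AddCommGroup G] [Finite G] (H : AddSubgroup G) (g : G) (j : ℕ)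
    (hj : 1 ≤ j) (hjg : j • g ∈ H) : Nat.card ↥(H ⊔ AddSubgroup.zmultiples g) ≤ Nat.card H * j := by
  have h1 : Nat.card (H × Fin j) = Nat.card H * j := by
    rw [Nat.card_prod, Nat.card_eq_fintype_card (α := Fin j), Fintype.card_fin]
  rw [← h1]
  have hmem : ∀ p : H × Fin j, (p.1 : G) + (p.2 : ℕ) • g ∈ H ⊔ AddSubgroup.zmultiples g := by
    intro p
    refine add_mem (AddSubgroup.mem_sup_left p.1.2) (AddSubgroup.mem_sup_right ?_)
    exact nsmul_mem (AddSubgroup.mem_zmultiples g) _
  refine Nat.card_le_card_of_surjective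
    (fun p : H × Fin j => (⟨(p.1 : G) + (p.2 : ℕ) • g, hmem p⟩ : ↥(H ⊔ AddSubgroup.zmultiples g))) ?_
  rintro ⟨y, hy⟩
  obtain ⟨h, hh, z, hz, rfl⟩ := AddSubgroup.mem_sup.1 hy
  obtain ⟨x, rfl⟩ := AddSubgroup.mem_zmultiples_iff.1 hz
  have hj0 : (0 : ℤ) < j := by omega
  have e2 := Int.emod_nonneg x hj0.ne'
  have e3 := Int.emod_lt_of_pos x hj0
  have e4 := Int.emod_add_mul_ediv x j
  have e5 : x • g = (x / j) • (j • g) + (x % j).toNat • g := by
    rw [← natCast_zsmul, ← natCast_zsmul, Int.toNat_of_nonneg e2, smul_smul, ← add_smul]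
    congr 1
    linarith
  refine ⟨(⟨h + (x / j) • (j • g), add_mem hh (zsmul_mem hjg _)⟩, ⟨(x % j).toNat, by omega⟩), ?_⟩
  apply Subtype.ext
  simp only
  rw [e5, add_assoc]

theorem Up.two_pow_le {G : Type*} [AddCommGroup G] {B : Finset G}
    (hB : Pool.Agent.Helper81.Dissoc.Dissociated B) (T : Finset G)
    (hT : ∀ S : Finset G, S ⊆ B → ∑ b ∈ S, b ∈ T) : 2 ^ B.card ≤ T.card := by
  classical
  rw [← Finset.card_powerset]
  refine Finset.card_le_card_of_injOn (fun S => ∑ b ∈ S, b)
    (fun S hS => hT S (Finset.mem_powerset.1 hS)) ?_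
  intro S hS T hT h
  exact hB.sum_injOn (Finset.mem_powerset.mp hS) (Finset.mem_powerset.mp hT) h

theorem upper_set {G : Type*} [AddCommGroup G] [Fintype G] (m : ℕ) (hm : 1 ≤ m) (hmG : m ≤ Fintype.card G) :
    ∃ A : Finset G, A.card = m ∧ ∀ B : Finset G, B ⊆ A → Pool.Agent.Helper81.Dissoc.Dissociated B →
      2 ^ B.card ≤ 2 * (B.card + 1) * m := by
  classical
  obtain ⟨H, hHm, hHmax⟩ := Set.exists_max_image {H : AddSubgroup G | Nat.card H ≤ m}
    (fun H : AddSubgroup G => Nat.card H) (Set.toFinite _) ⟨⊥, by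
      show Nat.card (⊥ : AddSubgroup G) ≤ m
      rw [AddSubgroup.card_bot]
      exact hm⟩
  have hHm' : Nat.card H ≤ m := hHm
  have hH0 : 0 < Nat.card H := Nat.card_pos
  by_cases htop : H = ⊤
  · refine ⟨Finset.univ, ?_, fun B _ hB => ?_⟩
    · rw [htop, AddSubgroup.card_top, Nat.card_eq_fintype_card] at hHm'
      rw [Finset.card_univ]
      omega
    · have h1 := Up.two_pow_le hB Finset.univ fun S _ => Finset.mem_univ _
      rw [htop, AddSubgroup.card_top, Nat.card_eq_fintype_card] at hHm'
      rw [Finset.card_univ] at h1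
      nlinarith
  · obtain ⟨g, hg⟩ : ∃ g, g ∉ H := by
      by_contra hcon
      push Not at hcon
      exact htop ((AddSubgroup.eq_top_iff' H).2 hcon)
    set h := Nat.card H with hh
    obtain ⟨M, hM1, hM2⟩ : ∃ M : ℕ, h * M < m + h ∧ m ≤ h * M := by
      refine ⟨(m + h - 1) / h, ?_, ?_⟩
      · have := Nat.mul_div_le (m + h - 1) h
        omega
      · have := Nat.lt_mul_div_succ (m + h - 1) hH0
        rw [mul_add, mul_one] at this
        omega
    have hM0 : 0 < M := by
      rcases Nat.eq_zero_or_pos M with h0 | h0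
      · rw [h0] at hM2; omega
      · exact h0
    -- small multiples of `g` are not in `H`
    have hnot : ∀ j : ℕ, 1 ≤ j → j < M → j • g ∉ H := by
      intro j hj1 hjM hjH
      have h1 : Nat.card ↥(H ⊔ AddSubgroup.zmultiples g) ≤ h * j := Up.card_sup_le H g j hj1 hjH
      have h2 : h * j < m := by
        have h3 : h * (j + 1) ≤ h * M := Nat.mul_le_mul_left _ hjM
        rw [mul_add, mul_one] at h3
        omega
      have h3 := hHmax (H ⊔ AddSubgroup.zmultiples g) (by
        show Nat.card _ ≤ m
        omega)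
      have h4 : H = H ⊔ AddSubgroup.zmultiples g :=
        AddSubgroup.eq_of_le_of_card_ge le_sup_left h3
      apply hg
      rw [h4]
      exact AddSubgroup.mem_sup_right (AddSubgroup.mem_zmultiples g)
    -- the progression
    let φ : H × ℕ → G := fun p => (p.1 : G) + p.2 • g
    have hφ : Set.InjOn φ ((Finset.univ : Finset H) ×ˢ (Finset.range M) : Finset (H × ℕ)) := by
      have key : ∀ p q : H × ℕ, p.2 ≤ q.2 → q.2 < M → φ p = φ q → p = q := by
        intro p q hpq hqM hpq2
        have h1 : (q.2 - p.2) • g = (p.1 : G) - (q.1 : G) := by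
          have h2 : (p.1 : G) + p.2 • g = (q.1 : G) + q.2 • g := hpq2
          have h3 : q.2 • g = (q.2 - p.2) • g + p.2 • g := by
            rw [← add_smul]
            congr 1
            omega
          rw [h3] at h2
          rw [eq_sub_iff_add_eq]
          have h4 : (p.1 : G) + p.2 • g = ((q.2 - p.2) • g + (q.1 : G)) + p.2 • g := by
            rw [h2]; abel
          exact (add_right_cancel h4).symm
        have h2 : (q.2 - p.2) • g ∈ H := by
          rw [h1]
          exact sub_mem p.1.2 q.1.2
        have h3 : q.2 - p.2 = 0 := by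
          by_contra h0
          exact hnot (q.2 - p.2) (by omega) (by omega) h2
        rw [h3, zero_smul] at h1
        have h4 : p.1 = q.1 := Subtype.ext (sub_eq_zero.1 h1.symm)
        exact Prod.ext h4 (by omega)
      intro p hp q hq hpq
      have hp' : p.2 < M := by
        have := (Finset.mem_product.1 (Finset.mem_coe.1 hp)).2
        exact Finset.mem_range.1 this
      have hq' : q.2 < M := by
        have := (Finset.mem_product.1 (Finset.mem_coe.1 hq)).2
        exact Finset.mem_range.1 this
      rcases le_total p.2 q.2 with hle | hle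
      · exact key p q hle hq' hpq
      · exact (key q p hle hp' hpq.symm).symm
    have hcH : (Finset.univ : Finset H).card = h := by
      rw [Finset.card_univ, hh, Nat.card_eq_fintype_card]
    set Q : Finset G := ((Finset.univ : Finset H) ×ˢ (Finset.range M)).image φ with hQ
    have hQc : Q.card = h * M := by
      rw [hQ, Finset.card_image_of_injOn hφ, Finset.card_product, hcH, Finset.card_range]
    obtain ⟨A, hAQ, hAm⟩ := Finset.exists_subset_card_eq (s := Q) (n := m) (by rw [hQc]; exact hM2)
    refine ⟨A, hAm, fun B hBA hB => ?_⟩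
    have hsum : ∀ S : Finset G, S ⊆ B →
        ∃ (y : H) (x : ℕ), x ≤ S.card * (M - 1) ∧ ∑ b ∈ S, b = (y : G) + x • g := by
      intro S
      induction S using Finset.induction_on with
      | empty => exact fun _ => ⟨0, 0, by simp, by simp⟩
      | insert a S ha ih =>
        intro hS
        obtain ⟨y, x, hx, hyx⟩ := ih fun b hb => hS (Finset.mem_insert_of_mem hb)
        have haQ : a ∈ Q := hAQ (hBA (hS (Finset.mem_insert_self a S)))
        rw [hQ, Finset.mem_image] at haQ
        obtain ⟨p, hp, hpa⟩ := haQ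
        have hp2 : p.2 < M := Finset.mem_range.1 (Finset.mem_product.1 hp).2
        refine ⟨p.1 + y, p.2 + x, ?_, ?_⟩
        · rw [Finset.card_insert_of_notMem ha, add_mul, one_mul]
          omega
        · rw [Finset.sum_insert ha, hyx, ← hpa]
          simp only [φ]
          rw [add_smul, AddSubgroup.coe_add]
          abel
    have h1 := Up.two_pow_le hB
      (((Finset.univ : Finset H) ×ˢ (Finset.range (B.card * (M - 1) + 1))).image φ) (by
        intro S hS
        obtain ⟨y, x, hx, hyx⟩ := hsum S hS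
        rw [Finset.mem_image]
        refine ⟨(y, x), Finset.mem_product.2 ⟨Finset.mem_univ _, Finset.mem_range.2 ?_⟩, hyx.symm⟩
        have h2 : S.card * (M - 1) ≤ B.card * (M - 1) :=
          Nat.mul_le_mul_right _ (Finset.card_le_card hS)
        omega)
    have h2 := Finset.card_image_le (s := (Finset.univ : Finset H) ×ˢ
      (Finset.range (B.card * (M - 1) + 1))) (f := φ)
    rw [Finset.card_product, hcH, Finset.card_range] at h2
    have h3 : h * (M - 1) ≤ m := by
      rw [Nat.mul_sub, mul_one]
      omega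
    have h4 : h * (B.card * (M - 1) + 1) = B.card * (h * (M - 1)) + h := by ring
    have h5 : B.card * (h * (M - 1)) ≤ B.card * m := Nat.mul_le_mul_left _ h3
    have h6 : 2 ^ B.card ≤ B.card * m + m := by
      calc 2 ^ B.card ≤ h * (B.card * (M - 1) + 1) := h1.trans h2
        _ = B.card * (h * (M - 1)) + h := h4
        _ ≤ B.card * m + m := by omega
    nlinarith

end DSB
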