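import Pool.Agent.DSB.Lo
import Pool.Agent.DSB.Pa
import Pool.Agent.DSB.Rk
import Pool.Agent.DSB.Up
import Pool.Agent.DSB.Un

/-! DSB / Main: assembly. -/

set_option autoImplicit false

open Finset Pool.Agent.Helper81.Dissoc

namespace DSB

theorem exists_set_dimGm {G : Type*} [AddCommGroup G] [Fintype G] (m : ℕ) (hm : m ≤ Fintype.card G) :
    ∃ A : Finset G, A.card = m ∧ dissDim A = dimGm G m := by
  have h1 : ∃ A : Finset G, A.card = m := by
    have : m ≤ (Finset.univ : Finset G).card := by simpa using hm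
    obtain ⟨A, _, hA⟩ := Finset.exists_subset_card_eq this
    exact ⟨A, hA⟩
  obtain ⟨A, hA⟩ := h1
  exact Nat.sInf_mem (s := {k | ∃ A : Finset G, A.card = m ∧ dissDim A = k}) ⟨_, A, hA, rfl⟩

open Classical in
theorem main :
    ∃ C : ℝ, ∀ (G : Type*) [AddCommGroup G] [Fintype G] (m r : ℕ), 4 ≤ m → m ≤ Fintype.card G → 1 ≤ r →
      ((∃ S : Finset G, AddSubgroup.closure (S : Set G) = ⊤ ∧ S.card ≤ r) ∨
        ∀ k : ℕ, 1 ≤ k →
          (k : ℝ) ≤ (2 : ℝ) ^ (2 * Real.sqrt (Real.logb 2 m * Real.logb 2 (Real.logb 2 m))) →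
          (Finset.univ.filter fun x : G => k • x = 0).card ≤ k ^ r) →
      Real.logb 2 m - C * Real.sqrt (r * Real.logb 2 m * Real.logb 2 (Real.logb 2 m)) ≤ dimGm G m ∧
        (dimGm G m : ℝ) ≤ Real.logb 2 m + Real.logb 2 (Real.logb 2 m) + C := by
  obtain ⟨C0, hC0, hpar⟩ := params
  refine ⟨max C0 4, ?_⟩
  intro G _ _ m r hm hmG hr hG
  have hS : 0 ≤ Real.sqrt (r * Real.logb 2 m * Real.logb 2 (Real.logb 2 m)) := Real.sqrt_nonneg _
  constructor
  · by_cases hc : C0 * Real.sqrt (r * Real.logb 2 m * Real.logb 2 (Real.logb 2 m)) ≤ Real.logb 2 m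
    · obtain ⟨n, J, N, R, ρ, hn, hn2, hρ, h4, h3, hR, hm2, hfin⟩ := hpar m r hm hr hc
      have hT : ∀ k : ℕ, 1 ≤ k → k ≤ 2 * n →
          (Finset.univ.filter fun x : G => k • x = 0).card ≤ (2 * n) ^ r := by
        intro k hk1 hk2
        have h5 : (Finset.univ.filter fun x : G => k • x = 0).card ≤ k ^ r := by
          rcases hG with ⟨S, hS1, hS2⟩ | hG
          · exact torsion_le r S hS1 hS2 k hk1
          · exact hG k hk1 (le_trans (by exact_mod_cast hk2) hn2)
        exact le_trans h5 (Nat.pow_le_pow_left hk2 r)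
      obtain ⟨A, hA, hAd⟩ := exists_set_dimGm (G := G) m hmG
      obtain ⟨B, hBA, hBc, hB⟩ := lower n ((2 * n) ^ r) J N hn hT ρ hρ h4 h3 R hR A (by rw [hA]; exact hm2)
      have h6 : (B.card : ℝ) ≤ dimGm G m := by
        rw [← hAd]
        exact_mod_cast le_dissDim hBA hB
      rw [hBc] at h6
      have h7 : C0 * Real.sqrt (r * Real.logb 2 m * Real.logb 2 (Real.logb 2 m)) ≤
          max C0 4 * Real.sqrt (r * Real.logb 2 m * Real.logb 2 (Real.logb 2 m)) :=
        mul_le_mul_of_nonneg_right (le_max_left _ _) hS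
      linarith
    · have h7 : C0 * Real.sqrt (r * Real.logb 2 m * Real.logb 2 (Real.logb 2 m)) ≤
          max C0 4 * Real.sqrt (r * Real.logb 2 m * Real.logb 2 (Real.logb 2 m)) :=
        mul_le_mul_of_nonneg_right (le_max_left _ _) hS
      have h8 : (0 : ℝ) ≤ dimGm G m := by positivity
      push Not at hc
      linarith
  · obtain ⟨A, hA, hAB⟩ := upper_set (G := G) m (by omega) hmG
    have h1 : dimGm G m ≤ dissDim A := Nat.sInf_le ⟨A, hA, rfl⟩
    obtain ⟨B, hBA, hB, hBc⟩ := exists_dissDim_eq A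
    have h2 := upper_num m B.card hm (hAB B hBA hB)
    have h3 : (dimGm G m : ℝ) ≤ B.card := by
      rw [hBc]
      exact_mod_cast h1
    have h4 : (4 : ℝ) ≤ max C0 4 := le_max_right _ _
    linarith

end DSB
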