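import Pool.Agent.DSB.Va
import Pool.Agent.DSB.Le
import Pool.Agent.DSB.Co

/-! DSB / St: one step, a single character hitting all windows.

PROOF. Let `Z` be the set of centres, `|Z| ≤ z`. By `card_corr` and `cheb` (with `M = 25 n² T`) the characters bad for
some `ζ ∈ Z` in the sense of `cheb` number at most `z * 8 n M |G| / |A| = z * 200 n³ T |G| / |A| ≤ |G| / 4` by `h1`; in the
sense of `leak` at most `z * 32 |G| / (n² ρ²) ≤ |G|/4` by `h2`. `|AddChar G ℂ| = |G|` (`AddChar.card_eq`), so some `ψ` is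
good for all `ζ ∈ Z`: the sum over the `s ∈ A` with `‖ψ s ζ - 1‖ ≤ ρ` is at least `|A| c/2 - |A| c/4 = |A| c /4 > 0`
(`c0_ge` gives `c > 0`), so such an `s` exists; and since `K ≤ n⁴` and `n³ ≤ 2c`, their number `a` satisfies
`a n⁴ ≥ |A| c/4 ≥ |A| n³/8`. -/

set_option autoImplicit false

open Finset

namespace DSB

variable {G : Type*} [AddCommGroup G] [Fintype G]

open Classical in
theorem step (n T z : ℕ) (hn : 1 ≤ n)
    (hT : ∀ k : ℕ, 1 ≤ k → k ≤ 2 * n → (Finset.univ.filter fun x : G => k • x = 0).card ≤ T)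
    (A : Finset G) (hne : A.Nonempty) (hA : ∀ s ∈ A, Good n s) (ρ : ℝ) (hρ : 0 < ρ)
    (Z : Finset ℂ) (hZ : ∀ ζ ∈ Z, ‖ζ‖ = 1) (hz : Z.card ≤ z)
    (h1 : z * (800 * n ^ 3 * T) ≤ A.card) (h2 : (128 * z : ℝ) ≤ (n : ℝ) ^ 2 * ρ ^ 2) :
    ∃ ψ : AddChar G ℂ, ∀ ζ ∈ Z, (A.filter fun s => ‖ψ s * ζ - 1‖ ≤ ρ).Nonempty ∧
      A.card ≤ 8 * n * (A.filter fun s => ‖ψ s * ζ - 1‖ ≤ ρ).card := by
  have hn0 : (0 : ℝ) < n := by exact_mod_cast hn
  have ha0 : (0 : ℝ) < A.card := by exact_mod_cast hne.card_pos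
  have hg0 : (0 : ℝ) < Fintype.card G := by exact_mod_cast Fintype.card_pos
  have hnr : (0 : ℝ) < (n : ℝ) ^ 2 * ρ ^ 2 := by positivity
  set B1 : ℂ → Finset (AddChar G ℂ) := fun ζ => Finset.univ.filter fun ψ : AddChar G ℂ =>
    ∑ s ∈ A, K n (ψ s * ζ) < (A.card : ℝ) * c0 n / 2 with hB1
  set B2 : ℂ → Finset (AddChar G ℂ) := fun ζ => Finset.univ.filter fun ψ : AddChar G ℂ =>
    (A.card : ℝ) * c0 n / 4 ≤ ∑ s ∈ A.filter (fun s => ρ < ‖ψ s * ζ - 1‖), K n (ψ s * ζ) with hB2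
  have e1 : ∀ ζ ∈ Z, ((B1 ζ).card : ℝ) * A.card ≤ 200 * n ^ 3 * T * Fintype.card G := by
    intro ζ hζ
    have h := cheb n hn A hA (25 * n ^ 2 * T) (card_corr n T hn hT A hA) ζ (hZ ζ hζ)
    refine h.trans (le_of_eq ?_)
    push_cast
    ring
  have e2 : ∀ ζ ∈ Z, ((B2 ζ).card : ℝ) * ((n : ℝ) ^ 2 * ρ ^ 2) ≤ 32 * Fintype.card G :=
    fun ζ hζ => leak n hn A hne hA ρ hρ ζ (hZ ζ hζ)
  have hzr : (Z.card : ℝ) ≤ z := by exact_mod_cast hz
  have s1 : (∑ ζ ∈ Z, ((B1 ζ).card : ℝ)) ≤ Fintype.card G / 4 := by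
    have h3 : (∑ ζ ∈ Z, ((B1 ζ).card : ℝ)) * A.card ≤ Z.card * (200 * n ^ 3 * T * Fintype.card G) := by
      rw [Finset.sum_mul]
      refine (Finset.sum_le_sum e1).trans (le_of_eq ?_)
      rw [Finset.sum_const, nsmul_eq_mul]
    have h4 : (Z.card : ℝ) * (200 * n ^ 3 * T * Fintype.card G) ≤
        z * (200 * n ^ 3 * T * Fintype.card G) :=
      mul_le_mul_of_nonneg_right hzr (by positivity)
    have h5 : (z : ℝ) * (800 * n ^ 3 * T) ≤ A.card := by exact_mod_cast h1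
    have h6 : (z : ℝ) * (200 * n ^ 3 * T * Fintype.card G) ≤ A.card / 4 * Fintype.card G := by
      have h7 := mul_le_mul_of_nonneg_right h5 hg0.le
      linarith
    have h8 : (∑ ζ ∈ Z, ((B1 ζ).card : ℝ)) * A.card ≤ (Fintype.card G / 4) * A.card := by
      linarith
    exact le_of_mul_le_mul_right h8 ha0
  have s2 : (∑ ζ ∈ Z, ((B2 ζ).card : ℝ)) ≤ Fintype.card G / 4 := by
    have h3 : (∑ ζ ∈ Z, ((B2 ζ).card : ℝ)) * ((n : ℝ) ^ 2 * ρ ^ 2) ≤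
        Z.card * (32 * Fintype.card G) := by
      rw [Finset.sum_mul]
      refine (Finset.sum_le_sum e2).trans (le_of_eq ?_)
      rw [Finset.sum_const, nsmul_eq_mul]
    have h4 : (Z.card : ℝ) * (32 * Fintype.card G) ≤ z * (32 * Fintype.card G) :=
      mul_le_mul_of_nonneg_right hzr (by positivity)
    have h7 := mul_le_mul_of_nonneg_right h2 hg0.le
    have h8 : (∑ ζ ∈ Z, ((B2 ζ).card : ℝ)) * ((n : ℝ) ^ 2 * ρ ^ 2) ≤
        (Fintype.card G / 4) * ((n : ℝ) ^ 2 * ρ ^ 2) := by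
      linarith
    exact le_of_mul_le_mul_right h8 hnr
  have hB : ((Z.biUnion fun ζ => B1 ζ ∪ B2 ζ).card : ℝ) ≤ Fintype.card G / 2 := by
    have h3 : (Z.biUnion fun ζ => B1 ζ ∪ B2 ζ).card ≤ ∑ ζ ∈ Z, ((B1 ζ).card + (B2 ζ).card) :=
      Finset.card_biUnion_le.trans (Finset.sum_le_sum fun ζ _ => Finset.card_union_le _ _)
    have h4 : ((Z.biUnion fun ζ => B1 ζ ∪ B2 ζ).card : ℝ) ≤
        ∑ ζ ∈ Z, (((B1 ζ).card : ℝ) + (B2 ζ).card) := by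
      exact_mod_cast h3
    rw [Finset.sum_add_distrib] at h4
    linarith
  have hex : ∃ ψ : AddChar G ℂ, ψ ∉ Z.biUnion fun ζ => B1 ζ ∪ B2 ζ := by
    by_contra hcon
    push Not at hcon
    have h3 : (Finset.univ : Finset (AddChar G ℂ)) ⊆ Z.biUnion fun ζ => B1 ζ ∪ B2 ζ :=
      fun ψ _ => hcon ψ
    have h4 := Finset.card_le_card h3
    rw [Finset.card_univ, AddChar.card_eq] at h4
    have h5 : (Fintype.card G : ℝ) ≤ ((Z.biUnion fun ζ => B1 ζ ∪ B2 ζ).card : ℝ) := by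
      exact_mod_cast h4
    linarith
  obtain ⟨ψ, hψ⟩ := hex
  refine ⟨ψ, fun ζ hζ => ?_⟩
  rw [Finset.mem_biUnion] at hψ
  push Not at hψ
  have h3 := hψ ζ hζ
  rw [Finset.mem_union] at h3
  push Not at h3
  have h4 : (A.card : ℝ) * c0 n / 2 ≤ ∑ s ∈ A, K n (ψ s * ζ) := by
    by_contra hcon
    exact h3.1 (Finset.mem_filter.2 ⟨Finset.mem_univ _, not_le.1 hcon⟩)
  have h5 : ∑ s ∈ A.filter (fun s => ρ < ‖ψ s * ζ - 1‖), K n (ψ s * ζ) <
      (A.card : ℝ) * c0 n / 4 := by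
    by_contra hcon
    exact h3.2 (Finset.mem_filter.2 ⟨Finset.mem_univ _, not_lt.1 hcon⟩)
  have h6 := Finset.sum_filter_add_sum_filter_not A (fun s => ρ < ‖ψ s * ζ - 1‖)
    (fun s => K n (ψ s * ζ))
  have h7 : (A.filter fun s => ¬ ρ < ‖ψ s * ζ - 1‖) = A.filter fun s => ‖ψ s * ζ - 1‖ ≤ ρ := by
    refine Finset.filter_congr fun s _ => ?_
    rw [not_lt]
  rw [h7] at h6
  have h8 : ∑ s ∈ A.filter (fun s => ‖ψ s * ζ - 1‖ ≤ ρ), K n (ψ s * ζ) ≤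
      ((A.filter fun s => ‖ψ s * ζ - 1‖ ≤ ρ).card : ℝ) * (n : ℝ) ^ 4 := by
    have h9 : ∀ s ∈ A.filter (fun s => ‖ψ s * ζ - 1‖ ≤ ρ), K n (ψ s * ζ) ≤ (n : ℝ) ^ 4 := by
      intro s _
      refine K_le n _ ?_
      rw [norm_mul, AddChar.norm_apply, hZ ζ hζ, one_mul]
    refine (Finset.sum_le_sum h9).trans (le_of_eq ?_)
    rw [Finset.sum_const, nsmul_eq_mul]
  have h10 : (n : ℝ) ^ 3 ≤ 2 * c0 n := by exact_mod_cast c0_ge n hn
  set N : ℝ := ((A.filter fun s => ‖ψ s * ζ - 1‖ ≤ ρ).card : ℝ) with hN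
  have h11 : (A.card : ℝ) * c0 n / 4 < N * (n : ℝ) ^ 4 := by linarith
  have h12 : (0 : ℝ) ≤ (A.card : ℝ) * c0 n / 4 := by positivity
  have h13 : 0 < N := by
    by_contra hcon
    have h14 : N * (n : ℝ) ^ 4 ≤ 0 := mul_nonpos_of_nonpos_of_nonneg (not_lt.1 hcon) (by positivity)
    linarith
  constructor
  · rw [← Finset.card_pos]
    rw [hN] at h13
    exact_mod_cast h13
  · have h14 : (A.card : ℝ) * (n : ℝ) ^ 3 ≤ A.card * (2 * c0 n) :=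
      mul_le_mul_of_nonneg_left h10 ha0.le
    have h15 : (A.card : ℝ) * (n : ℝ) ^ 3 ≤ (8 * n * N) * (n : ℝ) ^ 3 := by
      have h16 : (8 * (n : ℝ) * N) * (n : ℝ) ^ 3 = 8 * (N * (n : ℝ) ^ 4) := by ring
      rw [h16]
      linarith
    have h17 : (A.card : ℝ) ≤ 8 * n * N := le_of_mul_le_mul_right h15 (by positivity)
    rw [hN] at h17
    exact_mod_cast h17

end DSB
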