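import Pool.Agent.DSB.Ke
import Pool.Agent.DSB.Ex

/-! DSB / Va: Chebyshev.

PROOF. `X ψ = ∑_{s ∈ A} K n (ψ s * ζ)`, `m = |A|`, `c = c0 n`. `∑_ψ X ψ = |G| m c` (`sum_K`).
`∑_ψ (X ψ)² = ∑_{(s,t) ∈ A × A} ∑_ψ K K`; pairs with `Unc` give `|G| c²` each (`sum_KK`), the others at most
`n⁴ ∑_ψ K n (ψ s * ζ) = |G| n⁴ c` (`K_le`, `sum_K`); so `∑_ψ (X ψ - m c)² ≤ |G| (m M) n⁴ c`. For bad `ψ`,
`(X ψ - m c)² ≥ (m c / 2)²`. Hence `bad * m c ≤ 4 |G| M n⁴` (divide by `m c > 0`; if `m = 0` the claim is trivial), and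
with `n³ ≤ 2 c` (`c0_ge`): `bad * m * n³ ≤ 8 |G| M n⁴`. -/

set_option autoImplicit false

open Finset

namespace DSB

variable {G : Type*} [AddCommGroup G] [Fintype G]

private theorem K_nonneg (n : ℕ) (w : ℂ) : 0 ≤ K n w := by
  unfold K
  positivity

open Classical in
theorem cheb (n : ℕ) (hn : 1 ≤ n) (A : Finset G) (hA : ∀ s ∈ A, Good n s) (M : ℕ)
    (hM : ((A ×ˢ A).filter fun p => ¬ Unc n p.1 p.2).card ≤ A.card * M) (ζ : ℂ) (hζ : ‖ζ‖ = 1) :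
    ((Finset.univ.filter fun ψ : AddChar G ℂ =>
        ∑ s ∈ A, K n (ψ s * ζ) < (A.card : ℝ) * c0 n / 2).card : ℝ) * A.card ≤ 8 * n * M * Fintype.card G := by
  set N : ℝ := (Fintype.card G : ℝ) with hN
  set m : ℝ := (A.card : ℝ) with hm
  set c : ℝ := (c0 n : ℝ) with hc
  have hN0 : 0 ≤ N := Nat.cast_nonneg _
  have hm0 : 0 ≤ m := Nat.cast_nonneg _
  have hnr : (1 : ℝ) ≤ n := by exact_mod_cast hn
  have hc1 : (n : ℝ) ^ 3 ≤ 2 * c := by
    have h : (n : ℝ) ^ 3 ≤ 2 * (c0 n : ℝ) := by exact_mod_cast c0_ge n hn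
    exact h
  have hc0 : 0 < c := by
    have : (1 : ℝ) ≤ (n : ℝ) ^ 3 := one_le_pow₀ hnr
    linarith
  set X : AddChar G ℂ → ℝ := fun ψ => ∑ s ∈ A, K n (ψ s * ζ) with hX
  set bad := Finset.univ.filter fun ψ : AddChar G ℂ => ∑ s ∈ A, K n (ψ s * ζ) < m * c / 2 with hbad
  have hnorm : ∀ (ψ : AddChar G ℂ) (s : G), ‖ψ s * ζ‖ = 1 := fun ψ s => by
    rw [norm_mul, hζ, AddChar.norm_apply, mul_one]
  have hcard : ((Finset.univ : Finset (AddChar G ℂ)).card : ℝ) = N := by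
    rw [hN, Finset.card_univ, AddChar.card_eq]
  have S1 : ∑ ψ, X ψ = m * (N * c) := by
    rw [hX, sum_comm, sum_congr rfl (fun s hs => sum_K n s (hA s hs) ζ hζ), sum_const, nsmul_eq_mul]
  have S2 : ∑ ψ, X ψ ^ 2 ≤ m ^ 2 * (N * c ^ 2) + m * M * (N * (n : ℝ) ^ 4 * c) := by
    have e1 : ∀ ψ, X ψ ^ 2 = ∑ p ∈ A ×ˢ A, K n (ψ p.1 * ζ) * K n (ψ p.2 * ζ) := by
      intro ψ
      rw [hX, sq, sum_mul_sum, sum_product]
    rw [sum_congr rfl (fun ψ _ => e1 ψ), sum_comm]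
    rw [← sum_filter_add_sum_filter_not (A ×ˢ A) (fun p => Unc n p.1 p.2)]
    have e2 : ∑ p ∈ (A ×ˢ A).filter (fun p => Unc n p.1 p.2), ∑ ψ : AddChar G ℂ, K n (ψ p.1 * ζ) * K n (ψ p.2 * ζ) ≤
        m ^ 2 * (N * c ^ 2) := by
      rw [sum_congr rfl (fun p hp => sum_KK n p.1 p.2 (mem_filter.1 hp).2 ζ hζ), sum_const, nsmul_eq_mul]
      refine mul_le_mul_of_nonneg_right ?_ (by positivity)
      have := card_filter_le (A ×ˢ A) (fun p => Unc n p.1 p.2)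
      rw [card_product] at this
      calc (((A ×ˢ A).filter (fun p => Unc n p.1 p.2)).card : ℝ) ≤ ((A.card * A.card : ℕ) : ℝ) := by
            exact_mod_cast this
        _ = m ^ 2 := by rw [Nat.cast_mul, hm, sq]
    have e3 : ∑ p ∈ (A ×ˢ A).filter (fun p => ¬ Unc n p.1 p.2), ∑ ψ : AddChar G ℂ, K n (ψ p.1 * ζ) * K n (ψ p.2 * ζ) ≤
        m * M * (N * (n : ℝ) ^ 4 * c) := by
      calc _ ≤ ∑ p ∈ (A ×ˢ A).filter (fun p => ¬ Unc n p.1 p.2), N * (n : ℝ) ^ 4 * c := by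
            refine sum_le_sum fun p hp => ?_
            have hp1 := (mem_product.1 (mem_filter.1 hp).1).1
            calc ∑ ψ : AddChar G ℂ, K n (ψ p.1 * ζ) * K n (ψ p.2 * ζ) ≤
                  ∑ ψ : AddChar G ℂ, K n (ψ p.1 * ζ) * (n : ℝ) ^ 4 :=
                  sum_le_sum fun ψ _ => mul_le_mul_of_nonneg_left (K_le n _ (hnorm ψ p.2)) (K_nonneg _ _)
              _ = N * (n : ℝ) ^ 4 * c := by
                  rw [← sum_mul, sum_K n p.1 (hA _ hp1) ζ hζ]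
                  ring
        _ = (((A ×ˢ A).filter (fun p => ¬ Unc n p.1 p.2)).card : ℝ) * (N * (n : ℝ) ^ 4 * c) := by
            rw [sum_const, nsmul_eq_mul]
        _ ≤ m * M * (N * (n : ℝ) ^ 4 * c) := by
            refine mul_le_mul_of_nonneg_right ?_ (by positivity)
            have : (((A ×ˢ A).filter fun p => ¬ Unc n p.1 p.2).card : ℝ) ≤ ((A.card * M : ℕ) : ℝ) := by
              exact_mod_cast hM
            rw [Nat.cast_mul] at this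
            exact this
    exact add_le_add e2 e3
  have S3 : ∑ ψ, (X ψ - m * c) ^ 2 ≤ m * M * (N * (n : ℝ) ^ 4 * c) := by
    have e1 : ∑ ψ, (X ψ - m * c) ^ 2 = ∑ ψ, X ψ ^ 2 - 2 * (m * c) * ∑ ψ, X ψ + N * (m * c) ^ 2 := by
      have : ∀ ψ, (X ψ - m * c) ^ 2 = X ψ ^ 2 - 2 * (m * c) * X ψ + (m * c) ^ 2 := fun ψ => by ring
      rw [sum_congr rfl (fun ψ _ => this ψ), sum_add_distrib, sum_sub_distrib, ← mul_sum, sum_const,
        nsmul_eq_mul, hcard]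
    rw [e1, S1]
    have : m ^ 2 * (N * c ^ 2) - 2 * (m * c) * (m * (N * c)) + N * (m * c) ^ 2 = 0 := by ring
    linarith
  have S4 : (bad.card : ℝ) * (m * c / 2) ^ 2 ≤ ∑ ψ, (X ψ - m * c) ^ 2 := by
    calc (bad.card : ℝ) * (m * c / 2) ^ 2 = ∑ ψ ∈ bad, (m * c / 2) ^ 2 := by rw [sum_const, nsmul_eq_mul]
      _ ≤ ∑ ψ ∈ bad, (X ψ - m * c) ^ 2 := by
          refine sum_le_sum fun ψ hψ => ?_
          have h1 : X ψ < m * c / 2 := (mem_filter.1 hψ).2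
          have h2 : 0 ≤ m * c := by positivity
          nlinarith
      _ ≤ ∑ ψ, (X ψ - m * c) ^ 2 :=
          sum_le_sum_of_subset_of_nonneg (subset_univ _) fun _ _ _ => sq_nonneg _
  have S5 := S4.trans S3
  rcases hm0.eq_or_lt with h | h
  · rw [← h, mul_zero]
    positivity
  · have hb0 : (0 : ℝ) ≤ bad.card := Nat.cast_nonneg _
    have h1 : (m * c) * (bad.card * m * c) ≤ (m * c) * (4 * M * N * (n : ℝ) ^ 4) := by
      have : (m * c) * (bad.card * m * c) = 4 * ((bad.card : ℝ) * (m * c / 2) ^ 2) := by ring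
      rw [this]
      calc _ ≤ 4 * (m * M * (N * (n : ℝ) ^ 4 * c)) := by linarith
        _ = _ := by ring
    have h2 : bad.card * m * c ≤ 4 * M * N * (n : ℝ) ^ 4 := le_of_mul_le_mul_left h1 (by positivity)
    have h3 : (n : ℝ) ^ 3 * (bad.card * m) ≤ (n : ℝ) ^ 3 * (8 * n * M * N) := by
      calc (n : ℝ) ^ 3 * (bad.card * m) ≤ 2 * c * (bad.card * m) :=
            mul_le_mul_of_nonneg_right hc1 (by positivity)
        _ = 2 * (bad.card * m * c) := by ring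
        _ ≤ 2 * (4 * M * N * (n : ℝ) ^ 4) := by linarith
        _ = (n : ℝ) ^ 3 * (8 * n * M * N) := by ring
    exact le_of_mul_le_mul_left h3 (by positivity)

end DSB
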